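import Pool.Agent.H18.PN.Nzr
import Pool.Agent.H31.W.H3.D2G.RecG
import Pool.Agent.H3.W.Bas
import Pool.Agent.H57.SWC.Lx

/-!
# Natural labels at a window of a record, if the last slope is the smaller one

`RecG.dL2`: the levels of two windows. `nz_at`: the natural labels over the labels of an earlier
window.
-/

set_option autoImplicit false

namespace Pool.W.ALT

open Pool.ALT

open Finset Real MvPolynomial
open Pool.Agent.H49.Ent Pool.Agent.H32.Dense Pool.STK Pool.KA Pool.KSAT Pool.K2S Pool.PB Pool.S6C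
  Pool.GEN Pool.RCD Pool.LA91 Pool.OWN68 Pool.PKG
open Pool.V0F (LbU)

section

variable {m : ℕ} {S : Pool.PB.PCl m} {al : ℝ} {g₀ : ℝ → ℝ} {P : List (Fin m) × Fin m → ℝ → ℝ → ℝ}
  {θ : ℝ} {P₂ : ℕ → List (Fin m) × Fin m → ℝ → ℝ → ℝ} {θ₂ Eb e₂ : ℕ → ℝ}
  {c : ℕ → Fin m} {Pt : ℝ → ℝ → ℝ} {rt : ℝ → ℝ} {h K₀ g : ℝ} {L T : ℕ → ℝ → ℝ → ℝ}
  {Sl : ℕ → ℝ} {κ : ℕ → Pool.PKG.Kg} {G : Set ℝ} {S₀ N : ℕ} {A V : ℕ → ℝ} {S₂ N' : ℕ} {V' : ℕ → ℝ}
  {K ε q t : ℝ}
  (R : Pool.W.PKG.RecG S al g₀ P θ P₂ θ₂ Eb e₂ c Pt rt h K₀ g L T Sl κ G S₀ N A V S₂ N' V' K ε q t)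
include R

/-- The levels of two windows of a record. -/
theorem _root_.Pool.W.PKG.RecG.dL2 {l : ℕ} (hl : l < m) {x y : ℝ} (hx : |x| ≤ K) (hy : |y| ≤ K) :
    |L l (t + x * q) (t + x * q) - L l (t + y * q) (t + y * q) - Sl l * ((x - y) * q)| ≤
      2 * (ε * q) := by
  have hq := R.q0
  have hb : ∀ z : ℝ, |z| ≤ K → |t + z * q - t| ≤ K * q := fun z hz => by
    rw [add_sub_cancel_left, abs_mul, abs_of_pos hq]
    exact mul_le_mul_of_nonneg_right hz hq.le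
  have h1 := abs_le.1 (R.dL l hl _ (hb x hx))
  have h2 := abs_le.1 (R.dL l hl _ (hb y hy))
  have e1 : Sl l * (t + x * q - t) = Sl l * ((x - y) * q) + Sl l * (t + y * q - t) := by ring
  rw [e1] at h1
  rw [abs_le]
  exact ⟨by linarith only [h1.1, h2.2], by linarith only [h1.2, h2.1]⟩

end

/-- **The natural labels at a window of a record** over the labels of an earlier window, if the last
slope is at most the slope before. -/
theorem nz_at {r : ℕ} {S : Pool.PB.PCl (r + 2)} {al : ℝ} {g₀ : ℝ → ℝ}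
    {P : List (Fin (r + 2)) × Fin (r + 2) → ℝ → ℝ → ℝ}
    {θ : ℝ} {P₂ : ℕ → List (Fin (r + 2)) × Fin (r + 2) → ℝ → ℝ → ℝ} {θ₂ Eb e₂ : ℕ → ℝ}
    {c : ℕ → Fin (r + 2)} {Pt : ℝ → ℝ → ℝ} {rt : ℝ → ℝ} {h K₀ g : ℝ} {L T : ℕ → ℝ → ℝ → ℝ}
    {Sl : ℕ → ℝ} {κ : ℕ → Pool.PKG.Kg} {G : Set ℝ} {S₀ N : ℕ} {A V : ℕ → ℝ} {S₂ N' : ℕ} {V' : ℕ → ℝ}
    {K ε q t : ℝ}
    (R : Pool.W.PKG.RecG S al g₀ P θ P₂ θ₂ Eb e₂ c Pt rt h K₀ g L T Sl κ G S₀ N A V S₂ N' V' K ε q t)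
    (hcu : ∀ w ∈ G, ∃ rd : ℕ → ℝ, (∀ l < r + 1, 0 ≤ rd l) ∧
      Pool.LA91.Chn S c 0 (r + 1) w w (Pool.SWC.Lx L r w) (fun l => L l w w) rd) {M D : ℕ}
    {W : ℕ → ℝ}
    (hWm : ∀ k ≤ M, W k ≤ W (k + 1)) (hWK : ∀ k ≤ M + 1, |W k| ≤ K)
    (hWG : ∀ k ≤ M + 1, t + W k * q ∈ G) (hab : Sl (r + 1) ≤ Sl r) {ν e : ℝ}
    (hν0 : 0 ≤ ν) (hν : ∀ k ≤ M, Sl (r + 1) * (W (k + 1) - W k) ≤ ν) (he : 0 < e)
    (hνe : ν * q + 4 * (ε * q) ≤ e / 16) (hw0 : 0 ≤ t + W 0 * q)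
    (hlb : ∀ k ≤ M, ∃ rk E : ℝ, Pool.V0F.LbU S ((range (r + 1)).image c) (c (r + 1)) (t + W k * q)
      (L (r + 1) (t + W k * q) (t + W k * q)) rk E) {E Eu : ℝ}
    (hv : Pool.ALT.AlW S c r (c (r + 1)) D (t + W (M + 1) * q)
      (L (r + 1) (t + W (M + 1) * q) (t + W (M + 1) * q))
      (L r (t + W (M + 1) * q) (t + W (M + 1) * q)) E Eu
      (Pool.SWC.Lx L r (t + W (M + 1) * q)))
    (E₀ R₀ : ℝ) {uN eN : ℝ}
    (hpN : e / 2 ≤ L (r + 1) (t + W (M + 1) * q) (t + W (M + 1) * q))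
    (hu : Pool.SWC.Lx L r (t + W (M + 1) * q) < uN) (hu1 : uN < 1) (heN : E < eN)
    (hN : uN < L (r + 1) (t + W (M + 1) * q) (t + W (M + 1) * q) - e / 2 + eN) :
    ∃ p₁ p₂ : ℝ, p₁ < L (r + 1) (t + W (M + 1) * q) (t + W (M + 1) * q) ∧
      p₂ < L r (t + W (M + 1) * q) (t + W (M + 1) * q) ∧
      Pool.ALT.NzO S (Pool.ALT.LbF ((range (r + 1)).image c) (c (r + 1)) D E₀ R₀
        (L (r + 1) (t + W 0 * q) (t + W 0 * q) - e / 16) (t + W 0 * q)) c r (c (r + 1)) D D D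
        (t + W 0 * q) (t + W (M + 1) * q) p₁ p₂ eN uN
        (L (r + 1) (t + W (M + 1) * q) (t + W (M + 1) * q) - e / 2) := by
  have hq := R.q0
  have hmono : ∀ j k : ℕ, j ≤ k → k ≤ M + 1 → W j ≤ W k := by
    intro j k hjk
    induction k, hjk using Nat.le_induction with
    | base => intro _; exact le_rfl
    | succ k _ ih => intro hk; exact (ih (by omega)).trans (hWm k (by omega))
  -- the differences of the levels
  have key : ∀ k ≤ M, L r (t + W (k + 1) * q) (t + W (k + 1) * q) -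
      L (r + 1) (t + W k * q) (t + W k * q) ≤
      L r (t + W (M + 1) * q) (t + W (M + 1) * q) -
        L (r + 1) (t + W (M + 1) * q) (t + W (M + 1) * q) + e / 16 ∧
      L r (t + W (k + 1) * q) (t + W (k + 1) * q) -
        L (r + 1) (t + W (k + 1) * q) (t + W (k + 1) * q) ≤
      L r (t + W (M + 1) * q) (t + W (M + 1) * q) -
        L (r + 1) (t + W (M + 1) * q) (t + W (M + 1) * q) + e / 16 := by
    intro k hk
    have h1 := abs_le.1 (R.dL2 (l := r) (by omega) (hWK (k + 1) (by omega))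
      (hWK (M + 1) le_rfl))
    have h2 := abs_le.1 (R.dL2 (l := r + 1) (by omega) (hWK k (by omega)) (hWK (M + 1) le_rfl))
    have h3 := abs_le.1 (R.dL2 (l := r + 1) (by omega) (hWK (k + 1) (by omega))
      (hWK (M + 1) le_rfl))
    have h4 : Sl r * ((W (k + 1) - W (M + 1)) * q) ≤
        Sl (r + 1) * ((W (k + 1) - W (M + 1)) * q) :=
      mul_le_mul_of_nonpos_right hab (mul_nonpos_of_nonpos_of_nonneg
        (by linarith only [hmono (k + 1) (M + 1) (by omega) le_rfl]) hq.le)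
    have h5 : Sl (r + 1) * (W (k + 1) - W k) * q ≤ ν * q :=
      mul_le_mul_of_nonneg_right (hν k hk) hq.le
    have e1 : Sl (r + 1) * ((W (k + 1) - W (M + 1)) * q) =
        Sl (r + 1) * ((W k - W (M + 1)) * q) + Sl (r + 1) * (W (k + 1) - W k) * q := by ring
    have h6 : 0 ≤ ε * q := by
      have := (abs_nonneg _).trans (R.dL2 (l := r) (by omega) (hWK (k + 1) (by omega))
        (hWK (M + 1) le_rfl))
      linarith only [this]
    have h7 : 0 ≤ ν * q := mul_nonneg hν0 hq.le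
    exact ⟨by linarith only [h1.2, h2.1, h4, h5, e1, hνe, h6],
      by linarith only [h1.2, h3.1, h4, hνe, h6, h7]⟩
  have hinj : Set.InjOn c (Set.Iio (r + 1)) := R.inj.mono fun x hx => by
    rw [Set.mem_Iio] at hx ⊢
    omega
  have h0 := key 0 (Nat.zero_le M)
  refine Pool.ALT.nzo_tel R.tmc R.pos (M := M) (wb := fun k => t + W k * q) (sU := fun x => L r x x)
    (sN := fun x => L (r + 1) x x) hinj hw0 (fun k hk => ?_) (fun k hk => ?_)
    (fun k _ hk => ?_) hv (x₀ := L r (t + W (M + 1) * q) (t + W (M + 1) * q) -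
      L (r + 1) (t + W (M + 1) * q) (t + W (M + 1) * q) + e / 4) ?_ (fun k hk => ?_)
    (by linarith only [hpN]) (by linarith only [he]) ?_ hu hu1 heN hN
  · have := mul_le_mul_of_nonneg_right (hWm k hk) hq.le
    show t + W k * q ≤ t + W (k + 1) * q
    linarith only [this]
  · obtain ⟨rd, -, h1⟩ := hcu _ (hWG (k + 1) (by omega))
    exact ⟨_, _, _, rd, h1, rfl⟩
  · obtain ⟨rk, E', h1⟩ := hlb k hk
    exact h1.p
  · show L r (t + W (0 + 1) * q) (t + W (0 + 1) * q) -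
      (L (r + 1) (t + W 0 * q) (t + W 0 * q) - e / 16) < _
    linarith only [h0.1, he]
  · have h1 := key k hk
    exact ⟨by
      show L r (t + W (k + 1) * q) (t + W (k + 1) * q) -
        L (r + 1) (t + W k * q) (t + W k * q) < _
      linarith only [h1.1, he], by
      show L r (t + W (k + 1) * q) (t + W (k + 1) * q) -
        L (r + 1) (t + W (k + 1) * q) (t + W (k + 1) * q) < _
      linarith only [h1.2, he]⟩
  · show L (r + 1) (t + W (M + 1) * q) (t + W (M + 1) * q) - e / 2 + (_ : ℝ) <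
      L r (t + W (M + 1) * q) (t + W (M + 1) * q)
    linarith only [he]

end Pool.W.ALT
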