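import Pool.Agent.H18.PN.Nzs
import Pool.Agent.H3.W.Bas

/-!
# Natural labels of two windows, on all events of a subclass

`nzq_cls`: the pairs of natural labels of the windows `v`, `a` over the same label of a family exist
on all events of a subclass with the same record, if the natural labels exist at both windows.
-/

set_option autoImplicit false

namespace Pool.W.ALT

open Pool.ALT

open Finset Real MvPolynomial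
open Pool.Agent.H49.Ent Pool.Agent.H32.Dense Pool.STK Pool.KA Pool.KSAT Pool.K2S Pool.PB Pool.S6C
  Pool.GEN Pool.RCD Pool.LA91 Pool.OWN68 Pool.PKG
open Pool.UNJ (ceI)
open Pool.GRD (LbP)
open Pool.V0F (her_extc)

/-- **The pairs of natural labels on all events** of a subclass with the same record. -/
theorem nzq_cls {m : ℕ} {S : Pool.PB.PCl m} {al : ℝ} {g₀ : ℝ → ℝ}
    {P : List (Fin m) × Fin m → ℝ → ℝ → ℝ}
    {θ : ℝ} {P₂ : ℕ → List (Fin m) × Fin m → ℝ → ℝ → ℝ} {θ₂ Eb e₂ : ℕ → ℝ}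
    {c : ℕ → Fin m} {Pt : ℝ → ℝ → ℝ} {r : ℝ → ℝ} {hr K₀ g : ℝ} {L T : ℕ → ℝ → ℝ → ℝ}
    {Sl : ℕ → ℝ} {κg : ℕ → Pool.PKG.Kg} {G : Set ℝ} {S₀ N : ℕ} {A V : ℕ → ℝ} {S₂ N' : ℕ} {V' : ℕ → ℝ}
    {K ε q t : ℝ}
    (Rc : Pool.W.PKG.RecG S al g₀ P θ P₂ θ₂ Eb e₂ c Pt r hr K₀ g L T Sl κg G S₀ N A V S₂ N' V' K ε q t)
    {Ψ : Pool.ALT.Fml m} {r₀ D : ℕ} {κ : Fin m} {w v p₁ p₂ eN uN pN a pa₁ pa₂ ea ua pa : ℝ}
    {pκ pu E Eu u pκ' pu' E' Eu' u' : ℝ}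
    (hΨs : ∀ (J : ℕ) (F : Pool.KA.Fam m J) (A B : F.Ω → Prop) (V : Type) (z : Pool.GEN.PtT F → V)
      (z' : Pool.GEN.LnT F → V) (G : V → MvPolynomial (Option (Fin m)) ℝ), Pool.K2S.Sub B A →
      Ψ J F A V z z' G → Ψ J F B V z z' G)
    (hex : Pool.S6C.Bas S (fun J F A => ∃ (V : Type) (z : Pool.GEN.PtT F → V) (z' : Pool.GEN.LnT F → V)
      (G : V → MvPolynomial (Option (Fin m)) ℝ), Ψ J F A V z z' G))
    (hv : Pool.ALT.AlW S c r₀ κ D v pκ pu E Eu u) (ha : Pool.ALT.AlW S c r₀ κ D a pκ' pu' E' Eu' u')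
    (h1 : p₁ < pκ) (h2 : p₂ < pu) (h3 : pa₁ < pκ') (h4 : pa₂ < pu')
    (hN : Pool.ALT.NzO S Ψ c r₀ κ D D D w v p₁ p₂ eN uN pN)
    (hNa : Pool.ALT.NzO S Ψ c r₀ κ D D D w a pa₁ pa₂ ea ua pa) :
    ∃ S' : Pool.PB.PCl m, S'.Ne ∧ (∀ (τ : ℝ) (J : ℕ) (F : Pool.KA.Fam m J) (A : F.Ω → Prop),
        S'.St τ J F A → S.St τ J F A) ∧
      Pool.W.PKG.RecG S' al g₀ P θ P₂ θ₂ Eb e₂ c Pt r hr K₀ g L T Sl κg G S₀ N A V S₂ N' V' K ε q t ∧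
      Pool.S6C.Bas S' (fun J F A => ∃ (V : Type) (z : Pool.GEN.PtT F → V) (z' : Pool.GEN.LnT F → V)
        (G : V → MvPolynomial (Option (Fin m)) ℝ),
        Pool.ALT.NzQ Ψ c r₀ κ D D D D w v p₁ p₂ eN uN pN a pa₁ pa₂ ea ua pa J F A V z z' G) := by
  classical
  obtain ⟨S₁, a1, a2, a3⟩ := Pool.V0F.her_extc (ι := Unit) Rc.ne (fun _ J F A =>
      ∃ (V : Type) (z : Pool.GEN.PtT F → V) (z' : Pool.GEN.LnT F → V) (G : V → MvPolynomial (Option (Fin m)) ℝ),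
        Pool.ALT.NzF Ψ c r₀ κ D D D w v p₁ p₂ eN uN pN J F A V z z' G)
    (fun _ J F A B hB => by
      rintro ⟨V, z, z', G, hG⟩
      exact ⟨V, z, z', G, Pool.ALT.NzF.hs hΨs J F A B V z z' G hB hG⟩)
    (fun _ => ⟨8, Pool.ALT.nzf_ex hN hΨs hex (hv.ch1 h1) (hv.ch2 h2)⟩)
  have R1 := Rc.sub a1 a2
  have hex2 := Pool.ALT.nzq_ex (Kb := D) (hNa.sub a2) hΨs (a3 ()) ((ha.ch1 h3).sub a2)
    ((ha.ch2 h4).sub a2)
  obtain ⟨S₂', b1, b2, b3⟩ := Pool.V0F.her_extc (ι := Unit) a1 (fun _ J F A =>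
      ∃ (V : Type) (z : Pool.GEN.PtT F → V) (z' : Pool.GEN.LnT F → V)
        (G : V → MvPolynomial (Option (Fin m)) ℝ),
        Pool.ALT.NzQ Ψ c r₀ κ D D D D w v p₁ p₂ eN uN pN a pa₁ pa₂ ea ua pa J F A V z z' G)
    (fun _ J F A B hB => by
      rintro ⟨V, z, z', G, hG⟩
      exact ⟨V, z, z', G, Pool.ALT.NzQ.hs hΨs J F A B V z z' G hB hG⟩) (fun _ => ⟨8, hex2⟩)
  exact ⟨S₂', b1, fun τ J F A h => a2 τ J F A (b2 τ J F A h), R1.sub b1 b2, b3 ()⟩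

end Pool.W.ALT
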