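import Pool.Agent.H18.PN.Rla
import Pool.Agent.H31.W.H18.PN.Alx
import Pool.Agent.H3.W.Bas
import Pool.Agent.H57.SWC.Lxa

/-!
# The labels of a record, with the exponents of the rate

`AltC`: the data of `AltR` at a window. `rec_lab`: labels of fixed degree at all the chain windows of
the record, in a subclass. `alt_ful`: the rate of the last coordinate alone is almost the full one.
-/

set_option autoImplicit false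

namespace Pool.W.ALT

open Pool.ALT

open Finset Real MvPolynomial
open Pool.Agent.H49.Ent Pool.Agent.H32.Dense Pool.STK Pool.KA Pool.KSAT Pool.K2S Pool.PB Pool.S6C
  Pool.GEN Pool.RCD Pool.LA91 Pool.OWN68 Pool.PKG
open Pool.V0F (LbU)
open Pool.AJX (LbX)


/-- **The labels of the last coordinate at a window** `w`, with the margin `μ`, for the largest of
the levels of the first places. -/
def AltC {m : ℕ} (S : Pool.PB.PCl m) (c : ℕ → Fin m) (r : ℕ) (L : ℕ → ℝ → ℝ → ℝ)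
    (e₀ ρ₀ π₀ μ w : ℝ) : Prop :=
  ∃ rk E : ℝ, 0 ≤ rk ∧ rk + μ ≤ ρ₀ ∧ 0 ≤ E ∧ E + μ ≤ e₀ ∧
    Pool.SWC.Lx L r w + μ ≤ e₀ + L (r + 1) w w ∧ Pool.SWC.Lx L r w + μ ≤ ρ₀ ∧
    π₀ + μ ≤ L (r + 1) w w ∧ e₀ + L (r + 1) w w + μ ≤ 1 ∧
    L (r + 1) w w + Pool.SWC.Lx L r w + μ ≤ 1 + π₀ ∧
    Pool.V0F.LbU S ((range (r + 1)).image c) (c (r + 1)) w (L (r + 1) w w) rk E

theorem _root_.Pool.W.PN18.altC_sub {m : ℕ} {S S' : Pool.PB.PCl m}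
    (hs : ∀ (τ : ℝ) (J : ℕ) (F : Pool.KA.Fam m J) (A : F.Ω → Prop), S'.St τ J F A → S.St τ J F A)
    {c : ℕ → Fin m} {r : ℕ} {L : ℕ → ℝ → ℝ → ℝ} {e₀ ρ₀ π₀ μ w : ℝ}
    (h : Pool.W.ALT.AltC S c r L e₀ ρ₀ π₀ μ w) : Pool.W.ALT.AltC S' c r L e₀ ρ₀ π₀ μ w := by
  obtain ⟨rk, E, a1, a2, a3, a4, a5, a6, a7, a8, a9, a10⟩ := h
  exact ⟨rk, E, a1, a2, a3, a4, a5, a6, a7, a8, a9, a10.sub hs⟩

/-- **The labels of a record.** -/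
theorem rec_lab (r S₀ : ℕ) (hS₀ : 1 ≤ S₀) : ∃ D : ℕ, 1 ≤ D ∧
    ∀ {S : Pool.PB.PCl (r + 2)} {al : ℝ} {g₀ : ℝ → ℝ}
    {P : List (Fin (r + 2)) × Fin (r + 2) → ℝ → ℝ → ℝ}
    {θ : ℝ} {P₂ : ℕ → List (Fin (r + 2)) × Fin (r + 2) → ℝ → ℝ → ℝ} {θ₂ Eb e₂ : ℕ → ℝ}
    {c : ℕ → Fin (r + 2)} {Pt : ℝ → ℝ → ℝ} {rt : ℝ → ℝ} {h K₀ g : ℝ} {L T : ℕ → ℝ → ℝ → ℝ}
    {Sl : ℕ → ℝ} {κ : ℕ → Pool.PKG.Kg} {G : Set ℝ} {N : ℕ} {A V : ℕ → ℝ} {S₂ N' : ℕ} {V' : ℕ → ℝ}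
    {K ε q t : ℝ},
    Pool.W.PKG.RecG S al g₀ P θ P₂ θ₂ Eb e₂ c Pt rt h K₀ g L T Sl κ G S₀ N A V S₂ N' V' K ε q t →
    0 < K → (∀ k < N', |V' k| ≤ K) →
    (∀ w ∈ G, ∃ rd : ℕ → ℝ, (∀ l < r + 1, 0 ≤ rd l) ∧
      Pool.LA91.Chn S c 0 (r + 1) w w (Pool.SWC.Lx L r w) (fun l => L l w w) rd) →
    ∀ {e₀ ρ₀ π₀ μ : ℝ}, 0 < μ → (∀ k < N', Pool.W.ALT.AltC S c r L e₀ ρ₀ π₀ μ (t + V' k * q)) →
    ∃ S' : Pool.PB.PCl (r + 2), S'.Ne ∧ (∀ (τ : ℝ) (J : ℕ) (F : Pool.KA.Fam (r + 2) J) (A : F.Ω → Prop),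
        S'.St τ J F A → S.St τ J F A) ∧
      Pool.W.PKG.RecG S' al g₀ P θ P₂ θ₂ Eb e₂ c Pt rt h K₀ g L T Sl κ G S₀ N A V S₂ N' V' K ε q t ∧
      ∀ k < N', (∃ E : ℝ, E + μ ≤ e₀ ∧
        Pool.ALT.AlW S' c r (c (r + 1)) D (t + V' k * q) (L (r + 1) (t + V' k * q) (t + V' k * q))
          (L r (t + V' k * q) (t + V' k * q)) E
          (Pool.SWC.Lx L r (t + V' k * q) - L r (t + V' k * q) (t + V' k * q))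
          (Pool.SWC.Lx L r (t + V' k * q))) ∧
        ∀ e : ℝ, 0 < e → Pool.S6C.Bas S' (fun J F A => ∃ (V₁ : Type) (z : Pool.GEN.PtT F → V₁) (z' : Pool.GEN.LnT F → V₁)
          (g : V₁ → ℕ → MvPolynomial (Option (Fin (r + 2))) ℝ),
          Pool.AJX.LbX F c 0 (r + 1) D e (fun i => max 0 (Pool.SWC.Lx L r (t + V' k * q) -
            L i (t + V' k * q) (t + V' k * q))) (t + V' k * q)
            (fun _ => Pool.SWC.Lx L r (t + V' k * q))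
            (fun l => L l (t + V' k * q) (t + V' k * q)) A z z' g) := by
  obtain ⟨D, hD, H⟩ := Pool.W.ALT.alx_rec r S₀ hS₀
  refine ⟨D, hD, ?_⟩
  intro S al g₀ P θ P₂ θ₂ Eb e₂ c Pt rt h K₀ g L T Sl κ G N A V S₂ N' V' K ε q t R hK hV hcu e₀ ρ₀
    π₀ μ hμ halt
  have halt' : ∀ k, ∃ rk E : ℝ, k < N' → 0 ≤ rk ∧ rk + μ ≤ ρ₀ ∧ 0 ≤ E ∧ E + μ ≤ e₀ ∧
      Pool.SWC.Lx L r (t + V' k * q) + μ ≤ e₀ + L (r + 1) (t + V' k * q) (t + V' k * q) ∧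
      Pool.SWC.Lx L r (t + V' k * q) + μ ≤ ρ₀ ∧
      π₀ + μ ≤ L (r + 1) (t + V' k * q) (t + V' k * q) ∧
      e₀ + L (r + 1) (t + V' k * q) (t + V' k * q) + μ ≤ 1 ∧
      L (r + 1) (t + V' k * q) (t + V' k * q) + Pool.SWC.Lx L r (t + V' k * q) + μ ≤ 1 + π₀ ∧
      Pool.V0F.LbU S ((range (r + 1)).image c) (c (r + 1)) (t + V' k * q)
        (L (r + 1) (t + V' k * q) (t + V' k * q)) rk E := by
    intro k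
    by_cases hk : k < N'
    · obtain ⟨rk, E, h1⟩ := halt k hk
      exact ⟨rk, E, fun _ => h1⟩
    · exact ⟨0, 0, fun h => absurd h hk⟩
  choose rk E halt' using halt'
  obtain ⟨S', h1, h2, h3⟩ := H R hK hV (fun k hk => by
    obtain ⟨rd, -, h1⟩ := hcu _ (R.memG.2 k hk)
    exact ⟨rd, h1⟩) E rk (fun k hk => by
      obtain ⟨a1, a2, a3, a4, a5, a6, a7, a8, a9, a10⟩ := halt' k hk
      exact ⟨a3, by linarith, a10⟩)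
  refine ⟨S', h2.ne, h1, h2, fun k hk => ⟨⟨_, ?_, (h3 k hk).1⟩, fun e he => ?_⟩⟩
  · obtain ⟨a1, a2, a3, a4, a5, a6, a7, a8, a9, a10⟩ := halt' k hk
    have := max_le (show E k ≤ e₀ - μ by linarith)
      (show Pool.SWC.Lx L r (t + V' k * q) - L (r + 1) (t + V' k * q) (t + V' k * q) ≤
        e₀ - μ by linarith)
    linarith
  · refine ((h3 k hk).2 e he).mono 0 ?_
    rintro J - F A' ⟨V₁, z, z', g', h4⟩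
    refine ⟨V₁, z, z', g', fun i h5 h6 => ?_⟩
    have h7 := h4 i h5 (by omega)
    have e1 : Pool.W.ALT.eX r (E k) L (t + V' k * q) i = max 0 (Pool.SWC.Lx L r (t + V' k * q) -
        L i (t + V' k * q) (t + V' k * q)) := by
      unfold Pool.W.ALT.eX
      rw [if_pos h6]
    rw [e1] at h7
    exact h7

/-- **The rate of the last coordinate alone** is almost the full one. -/
theorem alt_ful {r K₁ : ℕ} {el : ℚ} (hel : 0 < el) {k₀ : ℕ} {S : Pool.PB.PCl (r + 2)}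
    {P : List (Fin (r + 2)) × Fin (r + 2) → ℝ → ℝ → ℝ} {θ : ℝ} {c : ℕ → Fin (r + 2)}
    {Pt : ℝ → ℝ → ℝ} {rt : ℝ → ℝ} {L T : ℕ → ℝ → ℝ → ℝ} {κ : ℕ → Pool.PKG.Kg} {G : Set ℝ} {g : ℝ}
    (H : Pool.W.ALT.AltR ((range r, K₁), el) k₀ S P θ c Pt rt L T κ G g) (hg : g ∈ G) {β δ : ℝ} {D : ℕ}
    (hK : K₁ ≤ D) (HF : ∀ i : Pool.ALT.AltJ, i.1.1 = r + 1 → i.1.2.1 = r → 0 ≤ (i.2.1 : ℝ) →
      (i.2.2.1 : ℝ) ≤ 1 → (i.2.1 : ℝ) + L (r + 1) g g < 1 → (i.2.2.2 : ℝ) < L (r + 1) g g →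
      L (r + 1) g g + Pool.SWC.Lx L r g < 1 + (i.2.2.2 : ℝ) → i.1.2.2 ≤ D →
      ∀ (φ e : ℝ) (k₀ : ℕ), 0 < e → Pool.ALT.RtAt i S c L g φ e k₀ → β - δ ≤ φ + e) :
    ∃ e₀ ρ₀ π₀ : ℝ, 0 ≤ e₀ ∧ ρ₀ + (1 / 2) ^ k₀ ≤ 1 ∧
      (∀ w ∈ G, |w - g| ≤ (1 / 2) ^ k₀ → Pool.W.ALT.AltC S c r L e₀ ρ₀ π₀ ((1 / 2) ^ k₀) w) ∧
      ∀ S' : Pool.PB.PCl (r + 2), S'.Ne → Pool.ALT.SubC S' S → ∀ w₀ : ℝ, 0 < w₀ → w₀ < g →
        Pool.ALT.AltE S' ((range (r + 1)).image c) (c (r + 1)) K₁ e₀ ρ₀ π₀ w₀ →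
        ∃ φ : ℝ, β - δ - el ≤ φ ∧ ∀ k ≥ k₀, Pool.ALT.AltAt S ((range (r + 1)).image c)
          ((range r).image c) (c (r + 1)) K₁ e₀ ρ₀ π₀ (fun w => L (r + 1) w w) g φ el k := by
  obtain ⟨e₀, ρ₀, π₀, h1, h2, h3, h4⟩ := H.ex
  have h2k : (0 : ℝ) < (1 / 2) ^ k₀ := by positivity
  refine ⟨e₀, ρ₀, π₀, h1, h2, h3, fun S' hne hs w₀ a1 a2 a3 => ?_⟩
  obtain ⟨φ, -, h5⟩ := h4 hel S' hne hs w₀ a1 a2 a3
  obtain ⟨rk, E, b1, b2, b3, b4, b5, b6, b7, b8, b9, b10⟩ := h3 g hg (by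
    rw [sub_self, abs_zero]
    exact h2k.le)
  change E + (1 / 2) ^ k₀ ≤ (e₀ : ℝ) at b4
  change (e₀ : ℝ) + L (r + 1) g g + (1 / 2) ^ k₀ ≤ 1 at b8
  change (π₀ : ℝ) + (1 / 2) ^ k₀ ≤ L (r + 1) g g at b7
  change L (r + 1) g g + Pool.SWC.Lx L r g + (1 / 2) ^ k₀ ≤ 1 + (π₀ : ℝ) at b9
  refine ⟨φ, ?_, h5⟩
  have h6 := HF ((r + 1, r, K₁), (e₀, ρ₀, π₀)) rfl rfl h1 (by linarith) (by linarith)
    (by linarith) (by linarith) hK φ el k₀ (by exact_mod_cast hel) (fun k hk => h5 k hk)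
  linarith

end Pool.W.ALT
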