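import Pool.Agent.H18.PN.Pdc
import Pool.Agent.H31.W.H18.PN.Nzr
import Pool.Agent.H31.W.H18.PN.Nzs
import Pool.Agent.H31.W.H3.D2G.RecN
import Pool.Agent.H3.W.Bas
import Pool.Agent.H31.W.H18.PN.Rla

/-!
# Pairs of natural labels at a record

`pd_cls`: in a subclass with the same record, natural labels of two windows over the same label of an
earlier window exist on all events, if the last slope is at most the slope before.
-/

set_option autoImplicit false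

namespace Pool.W.ALT

open Pool.ALT

open Finset Real MvPolynomial
open Pool.Agent.H49.Ent Pool.Agent.H32.Dense Pool.STK Pool.KA Pool.KSAT Pool.K2S Pool.PB Pool.S6C
  Pool.GEN Pool.RCD Pool.LA91 Pool.OWN68 Pool.PKG
open Pool.V0F (LbU)


/-- **The labels of the last coordinate with the exponents of the rate**, full behind the largest of
the levels of the first places. -/
def AlC {m : ℕ} (S : Pool.PB.PCl m) (c : ℕ → Fin m) (r D : ℕ) (L : ℕ → ℝ → ℝ → ℝ) (e₀ μ w : ℝ) :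
    Prop :=
  ∃ E : ℝ, E + μ ≤ e₀ ∧ Pool.ALT.AlW S c r (c (r + 1)) D w (L (r + 1) w w) (L r w w) E
    (Pool.SWC.Lx L r w - L r w w) (Pool.SWC.Lx L r w)

/-- Labels with the exponents of the rate exist. -/
theorem AlC.lb {m : ℕ} {S : Pool.PB.PCl m} {c : ℕ → Fin m} {r D : ℕ} {L : ℕ → ℝ → ℝ → ℝ}
    {e₀ ρ₀ μ w : ℝ} (h : Pool.W.ALT.AlC S c r D L e₀ μ w) (hρ₀ : Pool.SWC.Lx L r w + μ ≤ ρ₀) {K : ℕ}
    (hK : D ≤ K) {e p : ℝ} (he : 0 < e) (heμ : e ≤ μ) (hp : p ≤ L (r + 1) w w - e) :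
    Pool.S6C.Bas S (fun J F A => ∃ (V : Type) (z : Pool.GEN.PtT F → V) (z' : Pool.GEN.LnT F → V)
      (G : V → MvPolynomial (Option (Fin m)) ℝ),
      Pool.GEN.LbOK F ((range (r + 1)).image c) (c (r + 1)) K ⌊e₀ * J⌋₊ J ⌊w * J⌋₊ ⌊ρ₀ * J⌋₊
        ⌊p * J⌋₊ A z z' G) := by
  obtain ⟨E, h1, h2⟩ := h
  refine Bas.mono 0 (h2.lb e he) ?_
  rintro J - F A ⟨V, z, z', g, gu, h3, -⟩
  have hJ : (0 : ℝ) ≤ J := Nat.cast_nonneg J
  exact ⟨V, z, z', g, h3.mono (Finset.Subset.refl _) hK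
    (Nat.floor_le_floor (mul_le_mul_of_nonneg_right (by linarith only [h1, heμ]) hJ))
    (Nat.floor_le_floor (mul_le_mul_of_nonneg_right (by linarith only [hρ₀, heμ]) hJ))
    (Nat.floor_le_floor (mul_le_mul_of_nonneg_right (by linarith only [hp]) hJ))⟩

/-- **Pairs of natural labels** of the windows `t + W (M₁ + 1) q`, `t + W (M₂ + 1) q` over the same
label of the window `t + W 0 q`. -/
theorem pd_cls {r D : ℕ} {S : Pool.PB.PCl (r + 2)} {al : ℝ} {g₀ : ℝ → ℝ}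
    {P : List (Fin (r + 2)) × Fin (r + 2) → ℝ → ℝ → ℝ}
    {θ : ℝ} {P₂ : ℕ → List (Fin (r + 2)) × Fin (r + 2) → ℝ → ℝ → ℝ} {θ₂ Eb e₂ : ℕ → ℝ}
    {c : ℕ → Fin (r + 2)} {Pt : ℝ → ℝ → ℝ} {rt : ℝ → ℝ} {h K₀ g : ℝ} {L T : ℕ → ℝ → ℝ → ℝ}
    {Sl : ℕ → ℝ} {κ : ℕ → Pool.PKG.Kg} {G : Set ℝ} {S₀ N : ℕ} {A V : ℕ → ℝ} {S₂ N' : ℕ} {V' : ℕ → ℝ}
    {K ε q t : ℝ}
    (R : Pool.W.PKG.RecG S al g₀ P θ P₂ θ₂ Eb e₂ c Pt rt h K₀ g L T Sl κ G S₀ N A V S₂ N' V' K ε q t)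
    (hcu : ∀ w ∈ G, ∃ rd : ℕ → ℝ, (∀ l < r + 1, 0 ≤ rd l) ∧
      Pool.LA91.Chn S c 0 (r + 1) w w (Pool.SWC.Lx L r w) (fun l => L l w w) rd)
    {e₀ ρ₀ π₀ μ : ℝ} (hμ : 0 < μ)
    (hρ₀ : ρ₀ + μ ≤ 1) (halt : ∀ w ∈ G, |w - g| ≤ μ → Pool.W.ALT.AltC S c r L e₀ ρ₀ π₀ μ w)
    (hnear : ∀ x : ℝ, |x| ≤ K → |t + x * q - g| ≤ μ)
    {M₁ M₂ : ℕ} (hM : M₁ ≤ M₂) {W : ℕ → ℝ} (hWm : ∀ k ≤ M₂, W k ≤ W (k + 1))
    (hWK : ∀ k ≤ M₂ + 1, |W k| ≤ K) (hWG : ∀ k ≤ M₂ + 1, t + W k * q ∈ G)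
    (hab : Sl (r + 1) ≤ Sl r) (hb : 0 ≤ Sl (r + 1)) {ms e : ℝ}
    (hWs : ∀ k ≤ M₂, W (k + 1) - W k ≤ ms) (he : 0 < e) (heq : e ≤ q)
    (hms : Sl (r + 1) * ms * q + 4 * (ε * q) ≤ e / 16) (heμ : e ≤ μ / 4)
    (hwq : q ≤ t + W 0 * q) (hw1 : t + W (M₂ + 1) * q ≤ 1)
    (hn : Pool.W.ALT.AlC S c r D L e₀ μ (t + W 0 * q))
    (hv : Pool.W.ALT.AlC S c r D L e₀ μ (t + W (M₁ + 1) * q))
    (ht : Pool.W.ALT.AlC S c r D L e₀ μ (t + W (M₂ + 1) * q)) :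
    ∃ S' : Pool.PB.PCl (r + 2), S'.Ne ∧ (∀ (τ : ℝ) (J : ℕ) (F : Pool.KA.Fam (r + 2) J) (A : F.Ω → Prop),
        S'.St τ J F A → S.St τ J F A) ∧
      Pool.W.PKG.RecG S' al g₀ P θ P₂ θ₂ Eb e₂ c Pt rt h K₀ g L T Sl κ G S₀ N A V S₂ N' V' K ε q t ∧
      ∃ p₁ p₂ pa₁ pa₂ : ℝ, Pool.S6C.Bas S' (fun J F A => ∃ (V : Type) (z : Pool.GEN.PtT F → V) (z' : Pool.GEN.LnT F → V)
        (G : V → MvPolynomial (Option (Fin (r + 2))) ℝ),
        Pool.ALT.NzQ (Pool.ALT.LbF ((range (r + 1)).image c) (c (r + 1)) D e₀ ρ₀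
          (L (r + 1) (t + W 0 * q) (t + W 0 * q) - e / 16) (t + W 0 * q)) c r (c (r + 1))
          D D D D (t + W 0 * q) (t + W (M₁ + 1) * q) p₁ p₂ (e₀ - μ / 2)
          (Pool.SWC.Lx L r (t + W (M₁ + 1) * q) + μ / 4)
          (L (r + 1) (t + W (M₁ + 1) * q) (t + W (M₁ + 1) * q) - e / 2)
          (t + W (M₂ + 1) * q) pa₁ pa₂ (e₀ - μ / 2)
          (Pool.SWC.Lx L r (t + W (M₂ + 1) * q) + μ / 4)
          (L (r + 1) (t + W (M₂ + 1) * q) (t + W (M₂ + 1) * q) - e / 2) J F A V z z' G) := by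
  have hq := R.q0
  have hmono : ∀ j k : ℕ, j ≤ k → k ≤ M₂ + 1 → W j ≤ W k := by
    intro j k hjk
    induction k, hjk using Nat.le_induction with
    | base => intro _; exact le_rfl
    | succ k _ ih => intro hk; exact (ih (by omega)).trans (hWm k (by omega))
  have hC : ∀ k ≤ M₂ + 1, Pool.W.ALT.AltC S c r L e₀ ρ₀ π₀ μ (t + W k * q) := fun k hk =>
    halt _ (hWG k hk) (hnear _ (hWK k hk))
  -- the natural labels at one window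
  have key : ∀ M ≤ M₂, Pool.W.ALT.AlC S c r D L e₀ μ (t + W (M + 1) * q) → ∃ p₁ p₂ : ℝ,
      p₁ < L (r + 1) (t + W (M + 1) * q) (t + W (M + 1) * q) ∧
      p₂ < L r (t + W (M + 1) * q) (t + W (M + 1) * q) ∧
      Pool.ALT.NzO S (Pool.ALT.LbF ((range (r + 1)).image c) (c (r + 1)) D e₀ ρ₀
        (L (r + 1) (t + W 0 * q) (t + W 0 * q) - e / 16) (t + W 0 * q)) c r (c (r + 1)) D D D
        (t + W 0 * q) (t + W (M + 1) * q) p₁ p₂ (e₀ - μ / 2)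
        (Pool.SWC.Lx L r (t + W (M + 1) * q) + μ / 4)
        (L (r + 1) (t + W (M + 1) * q) (t + W (M + 1) * q) - e / 2) := by
    intro M hMM hA
    obtain ⟨E, h1, h2⟩ := hA
    obtain ⟨rk, E', b1, b2, b3, b4, b5, b6, b7, b8, b9, b10⟩ := hC (M + 1) (by omega)
    have hwM : t + W 0 * q ≤ t + W (M + 1) * q := by
      have := mul_le_mul_of_nonneg_right (hmono 0 (M + 1) (Nat.zero_le _) (by omega)) hq.le
      linarith only [this]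
    have hwM1 : t + W (M + 1) * q ≤ 1 := by
      have := mul_le_mul_of_nonneg_right (hmono (M + 1) (M₂ + 1) (by omega) le_rfl) hq.le
      linarith only [this, hw1]
    have hlow : t + W (M + 1) * q ≤ L (r + 1) (t + W (M + 1) * q) (t + W (M + 1) * q) :=
      R.low_at (by omega) (by linarith only [hwM, hwq, hq]) le_rfl hwM1
    exact Pool.W.ALT.nz_at R hcu (fun k hk => hWm k (by omega)) (fun k hk => hWK k (by omega))
      (fun k hk => hWG k (by omega)) hab (ν := Sl (r + 1) * ms)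
      (mul_nonneg hb (by
        have h3 := hWs 0 (Nat.zero_le _)
        have h4 := hWm 0 (Nat.zero_le _)
        linarith only [h3, h4]))
      (fun k hk => mul_le_mul_of_nonneg_left (hWs k (by omega)) hb) he hms
      (by linarith only [hwq, hq])
      (fun k hk => by
        obtain ⟨rk, E', -, -, -, -, -, -, -, -, -, h5⟩ := hC k (by omega)
        exact ⟨rk, E', h5⟩) h2 e₀ ρ₀ (by linarith only [hlow, hwM, hwq, heq, he])
      (by linarith only [hμ]) (by linarith only [b6, hρ₀, hμ]) (by linarith only [h1, hμ])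
      (by linarith only [b5, heμ, hμ])
  obtain ⟨p₁, p₂, a1, a2, a3⟩ := key M₁ hM hv
  obtain ⟨pa₁, pa₂, a4, a5, a6⟩ := key M₂ le_rfl ht
  obtain ⟨Ev, hv1, hv2⟩ := hv
  obtain ⟨Et, ht1, ht2⟩ := ht
  obtain ⟨rk, E', b1, b2, b3, b4, b5, b6, b7, b8, b9, b10⟩ := hC 0 (Nat.zero_le _)
  have hex := Pool.W.ALT.AlC.lb hn b6 le_rfl (e := e / 16)
    (p := L (r + 1) (t + W 0 * q) (t + W 0 * q) - e / 16) (by linarith only [he])
    (by linarith only [heμ, hμ, he]) le_rfl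
  obtain ⟨S', c1, c2, c3, c4⟩ := Pool.W.ALT.nzq_cls R (Ψ := Pool.ALT.LbF ((range (r + 1)).image c) (c (r + 1)) D e₀ ρ₀
    (L (r + 1) (t + W 0 * q) (t + W 0 * q) - e / 16) (t + W 0 * q)) Pool.ALT.LbF.hs hex hv2 ht2 a1 a2 a4
    a5 a3 a6
  exact ⟨S', c1, c2, c3, p₁, p₂, pa₁, pa₂, c4⟩

end Pool.W.ALT
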