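import Pool.Agent.H18.PN.Pdd
import Pool.Agent.H31.W.H18.PN.Nzr
import Pool.Agent.H31.W.H3.D2G.RecN
import Pool.Agent.H31.W.H42.D2.Nqa
import Pool.Agent.H31.W.H92.D2.Ceg
import Pool.Agent.H3.W.Bas
import Pool.Agent.H31.W.H18.PN.Rla

/-!
# The data of a jointly nonfull pair at a record

`paird_of`: the data `PairD` of the family of pairs of a chain with a natural last label, if the last
slope is at most the slope before.
-/

set_option autoImplicit false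

namespace Pool.W.PN18

open Pool.PN18

open Finset Real MvPolynomial
open Pool.Agent.H49.Ent Pool.Agent.H32.Dense Pool.STK Pool.KA Pool.KSAT Pool.K2S Pool.PB Pool.GEN
open Pool.S6C Pool.RCD Pool.LA91 Pool.OWN68 Pool.AJW Pool.AJX Pool.CHT Pool.PKG Pool.ALT
open Pool.V0F (LbU)


/-- The exponents of the chain and of the last coordinate, for the largest of the first levels. -/
noncomputable def eP (r : ℕ) (L : ℕ → ℝ → ℝ → ℝ) (eN v : ℝ) (i : ℕ) : ℝ :=
  if i = r + 1 then eN else max 0 (Pool.SWC.Lx L r v - L i v v)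

theorem eP_last (r : ℕ) (L : ℕ → ℝ → ℝ → ℝ) (eN v : ℝ) : Pool.W.PN18.eP r L eN v (r + 1) = eN :=
  if_pos rfl

theorem eP_lt {r : ℕ} (L : ℕ → ℝ → ℝ → ℝ) (eN v : ℝ) {i : ℕ} (hi : i ≤ r) :
    Pool.W.PN18.eP r L eN v i = max 0 (Pool.SWC.Lx L r v - L i v v) := if_neg (by omega)

/-- **The data of a jointly nonfull pair at a record.** -/
theorem paird_of {r D : ℕ} (hr : 1 ≤ r) {S : Pool.PB.PCl (r + 2)} {al : ℝ} {g₀ : ℝ → ℝ}
    {P : List (Fin (r + 2)) × Fin (r + 2) → ℝ → ℝ → ℝ}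
    {θ : ℝ} {P₂ : ℕ → List (Fin (r + 2)) × Fin (r + 2) → ℝ → ℝ → ℝ} {θ₂ Eb e₂ : ℕ → ℝ}
    {c : ℕ → Fin (r + 2)} {Pt : ℝ → ℝ → ℝ} {rt : ℝ → ℝ} {h K₀ g : ℝ} {L T : ℕ → ℝ → ℝ → ℝ}
    {Sl : ℕ → ℝ} {κ : ℕ → Pool.PKG.Kg} {G : Set ℝ} {S₀ N : ℕ} {A V : ℕ → ℝ} {S₂ N' : ℕ} {V' : ℕ → ℝ}
    {K' ε q t : ℝ}
    (R : Pool.W.PKG.RecG S al g₀ P θ P₂ θ₂ Eb e₂ c Pt rt h K₀ g L T Sl κ G S₀ N A V S₂ N' V' K' ε q t)
    (hκ : ∀ l < r, κ l = .one) {a b τ : ℝ} (haE : Sl r = a) (hbE : Sl (r + 1) = b) (ha : 1 < a)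
    (hb : 0 < b) (hab : b ≤ a) (hτ : a < τ) (hh1 : h ≤ 1) (hε : 0 < ε)
    (hcu : ∀ w ∈ G, ∃ rd : ℕ → ℝ, (∀ l < r + 1, 0 ≤ rd l) ∧
      Pool.LA91.Chn S c 0 (r + 1) w w (Pool.SWC.Lx L r w) (fun l => L l w w) rd)
    {e₀ ρ₀ π₀ μ : ℝ} (hμ : 0 < μ)
    (hρ₀ : ρ₀ + μ ≤ 1) (halt : ∀ w ∈ G, |w - g| ≤ μ → Pool.W.ALT.AltC S c r L e₀ ρ₀ π₀ μ w)
    (hnear : ∀ x : ℝ, |x| ≤ K' → |t + x * q - g| ≤ μ)
    {k : ℕ} {ph el dl : ℝ} (hFN : Pool.ALT.AltAt S ((range (r + 1)).image c) ((range r).image c)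
      (c (r + 1)) (max D D * max 1 D) e₀ ρ₀ π₀ (fun w => L (r + 1) w w) g ph el k)
    (hel : 0 ≤ el) (hdl : 0 ≤ dl) (hdlb : dl ≤ b * Real.log 2) (hph : b * Real.log 2 - dl ≤ ph)
    (hk1 : g - (1 / 2) ^ k ≤ t + -τ * q) (hk2 : t + -τ * q + a * q ≤ g + (1 / 2) ^ k)
    -- the natural labels
    {vn p₁ p₂ pa₁ pa₂ e : ℝ}
    (hNz : Pool.S6C.Bas S (fun J F A => ∃ (V : Type) (z : Pool.GEN.PtT F → V) (z' : Pool.GEN.LnT F → V)
        (G : V → MvPolynomial (Option (Fin (r + 2))) ℝ),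
        Pool.ALT.NzQ (Pool.ALT.LbF ((range (r + 1)).image c) (c (r + 1)) D e₀ ρ₀ (L (r + 1) vn vn - e / 16) vn)
          c r (c (r + 1)) D D D D vn (t + -τ * q) p₁ p₂ (e₀ - μ / 2)
          (Pool.SWC.Lx L r (t + -τ * q) + μ / 4)
          (L (r + 1) (t + -τ * q) (t + -τ * q) - e / 2) t pa₁ pa₂ (e₀ - μ / 2)
          (Pool.SWC.Lx L r t + μ / 4) (L (r + 1) t t - e / 2) J F A V z z' G))
    (hLx : ∀ e : ℝ, 0 < e → Pool.S6C.Bas S (fun J F A => ∃ (V₁ : Type) (z : Pool.GEN.PtT F → V₁)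
      (z' : Pool.GEN.LnT F → V₁) (g : V₁ → ℕ → MvPolynomial (Option (Fin (r + 2))) ℝ),
      Pool.AJX.LbX F c 0 (r + 1) D e (fun i => max 0 (Pool.SWC.Lx L r (t + -τ * q) -
        L i (t + -τ * q) (t + -τ * q))) (t + -τ * q)
        (fun _ => Pool.SWC.Lx L r (t + -τ * q))
        (fun l => L l (t + -τ * q) (t + -τ * q)) A z z' g))
    -- the windows
    (hvn0 : 0 ≤ vn) (hvn : vn + Pool.PKG.pzD a b * q ≤ t + -τ * q) (hpzD : 0 ≤ Pool.PKG.pzD a b) (htG : t ∈ G)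
    {ms : ℝ} (hms0 : 0 < ms)
    (hgap : ∀ y, -τ ≤ y → y ≤ -τ + a → ∃ w, |w| ≤ K' ∧ t + w * q ∈ G ∧ |w - y| ≤ ms)
    (hvG : t + -τ * q ∈ G) {X φ kf ℓ : ℝ} (hXj : ∀ k ≤ r, t + Pool.AJW.jfV r (-τ) X k * q ∈ G)
    -- the numbers
    (hX1 : 2 * (6 * τ) ≤ X) (hX2 : 2 * (a * a) + 2 ≤ X) (hX3 : 32 * (r + 1) * φ ≤ X)
    (hkf1 : 3 ^ r * X ≤ kf) (hkf2 : a * b + 2 * (r + 1) * φ + 1 ≤ kf) (hℓ1 : kf + τ ≤ ℓ)
    (hℓ2 : 3 ^ r * X + a + 1 ≤ ℓ) (hℓ3 : a * a + a + 1 ≤ ℓ) (hK1 : ℓ + 1 ≤ K')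
    (hK2 : τ + 3 ^ r * X ≤ K') (hK3 : b * τ + a * b + 2 ≤ K') (hK4 : a * a + τ + 2 ≤ K')
    (hφ0 : 0 < φ) (hφ1 : φ ≤ 1 / 8) (hεφ : 2 * ε ≤ φ) (he : 0 < e) (heφ : e ≤ φ * q / 8)
    (he64 : e ≤ q / 64) (hεe : 2 * (ε * q) ≤ e) (hbτ : b * a * q + e + 2 * (ε * q) ≤ b * τ * q)
    (hqμ : (a * a + a * b + 4) * q ≤ μ / 4) {pf : ℕ → ℝ} {Nf : ℕ → ℕ → ℝ}
    (hpf : ∀ l < r, L l t t - φ * q ≤ pf l)
    (hNf : ∀ l < r, ∀ j ≤ 1, Nf l j = L l t t + kf * q - (j : ℕ) * t) {δ : ℝ} (hδ0 : 0 < δ)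
    (hδ : (2 * ε * q + (r + 1) * (8 * e)) + (3 * (e + 8 * e) + 6 * (b * (ms * q))) +
      (3 * e + 8 * e + a * (2 * (ms * q))) + el * (1 / 2) ^ k + dl * (a * q) < δ * (a * q))
    (N₀ : ℕ) :
    Pool.PKG.PairD S (Pool.PN18.PsQ (Pool.ALT.LbF ((range (r + 1)).image c) (c (r + 1)) D e₀ ρ₀
        (L (r + 1) vn vn - e / 16) vn) c r D (max D D * max 1 D) vn (t + -τ * q) t p₁ p₂
        (e₀ - μ / 2) (Pool.SWC.Lx L r (t + -τ * q) + μ / 4)
        (L (r + 1) (t + -τ * q) (t + -τ * q) - e / 2) pa₁ pa₂ (e₀ - μ / 2)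
        (Pool.SWC.Lx L r t + μ / 4)
        (L (r + 1) t t - e / 2) (ℓ * q) e (Pool.W.PN18.eP r L (e₀ - μ / 2) (t + -τ * q))
        (fun _ => Pool.SWC.Lx L r (t + -τ * q) + μ / 4)
        (fun i => L i (t + -τ * q) (t + -τ * q))
        (Pool.AJW.nX r (fun l x => L l x x) (t + -τ * q) (X * q))) c r (max D D * max 1 D)
      ((range (r + 1)).image c) (c (r + 1)) a b (h * b) δ (ℓ * q) N₀ (t + -τ * q) t q
      (fun i => L i (t + -τ * q) (t + -τ * q))
      (Pool.AJW.nX r (fun l x => L l x x) (t + -τ * q) (X * q)) (fun x => L (r + 1) x x) pf Nf e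
      (Pool.W.PN18.eP r L (e₀ - μ / 2) (t + -τ * q) (r + 1) + e)
      (Pool.SWC.Lx L r (t + -τ * q) + μ / 4 + e) (L (r + 1) (t + -τ * q) (t + -τ * q))
      (Pool.W.PN18.eP r L (e₀ - μ / 2) (t + -τ * q)) (fun _ => Pool.SWC.Lx L r (t + -τ * q) + μ / 4)
      vn (L (r + 1) vn vn) e₀ ρ₀ (D * max 1 D) := by
  have hq := R.q0
  have ht0 := R.t0
  have ht1 := R.t1
  have htm := R.tmc
  have hpos := R.pos
  have ha0 : 0 < a := by linarith only [ha]
  have hτ0 : 0 < τ := by linarith only [ha0, hτ]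
  have hr0 : (0 : ℝ) ≤ r := Nat.cast_nonneg r
  have h3X : X ≤ 3 ^ r * X := by
    have h1 : (1 : ℝ) ≤ 3 ^ r := one_le_pow₀ (by norm_num)
    have h2 : 0 ≤ X := by
      have := mul_pos ha0 ha0
      linarith only [hX2, this]
    exact le_mul_of_one_le_left h2 h1
  have haa : 0 < a * a := mul_pos ha0 ha0
  have habm : 0 < a * b := mul_pos ha0 hb
  have hX0 : 0 < X := by linarith only [hX2, haa]
  have hεq : 0 < ε * q := mul_pos hε hq
  have hφq : 0 < φ * q := mul_pos hφ0 hq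
  have hτK : τ ≤ K' := by linarith only [hK4, haa]
  have hK0 : 0 < K' := by linarith only [hτK, hτ0]
  have hKq : 0 < K' * q := mul_pos hK0 hq
  have hvK : |(-τ : ℝ)| ≤ K' := by
    rw [abs_neg, abs_of_pos hτ0]
    exact hτK
  have h0K : |(0 : ℝ)| ≤ K' := by
    rw [abs_zero]
    exact hK0.le
  have e0 : t + 0 * q = t := by rw [zero_mul, add_zero]
  -- the window `v`
  have hdv := fun l (hl : l < r + 2) => R.dL2 (l := l) hl hvK h0K
  rw [e0] at hdv
  have hCv := halt _ hvG (hnear _ hvK)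
  have hbox : ∀ w : ℝ, t + -τ * q ≤ w → w ≤ t → |w - t| ≤ K' * q := fun w h1 h2 => by
    rw [abs_le]
    have h3 : τ * q ≤ K' * q := mul_le_mul_of_nonneg_right hτK hq.le
    exact ⟨by linarith only [h1, h3], by linarith only [h2, hKq]⟩
  have hdw : ∀ l < r + 2, ∀ w : ℝ, t + -τ * q ≤ w → w ≤ t →
      |L l w w - L l (t + -τ * q) (t + -τ * q) - Sl l * (w - (t + -τ * q))| ≤ 2 * (ε * q) := by
    intro l hl w h1 h2
    have hτq : 0 < τ * q := mul_pos hτ0 hq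
    have h3 := abs_le.1 (R.dL l hl w (hbox w h1 h2))
    have h4 := abs_le.1 (R.dL l hl (t + -τ * q) (hbox _ le_rfl (by linarith only [hτq])))
    have e1 : Sl l * (w - t) = Sl l * (w - (t + -τ * q)) + Sl l * (t + -τ * q - t) := by ring
    rw [e1] at h3
    rw [abs_le]
    exact ⟨by linarith only [h3.1, h4.2], by linarith only [h3.2, h4.1]⟩
  obtain ⟨v, hv⟩ : ∃ v, v = t + -τ * q := ⟨_, rfl⟩
  have hv' : v = t - τ * q := by rw [hv]; ring
  have hroom : ∀ j ≤ r + 1, L j v v + 3 * K' * q < 1 := by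
    intro j hj
    have W := R.tg (r + 1) (by omega) (by omega)
    have h1 := W.room j hj v (by rw [hv]; exact hbox _ le_rfl (by
      linarith only [mul_pos hτ0 hq]))
    have h2 := W.Eb0
    linarith only [h1, h2]
  rw [← hv] at hdv hCv hdw hNz hLx hvn hvG hk1 hk2 ⊢
  obtain ⟨rk, E', b1, b2, b3, b4, b5, b6, b7, b8, b9, b10⟩ := hCv
  have hτq : 0 < τ * q := mul_pos hτ0 hq
  have haq : 0 < a * q := mul_pos ha0 hq
  have hK4q : (a * a + τ + 2) * q ≤ K' * q := mul_le_mul_of_nonneg_right hK4 hq.le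
  have hK1q : (ℓ + 1) * q ≤ K' * q := mul_le_mul_of_nonneg_right hK1 hq.le
  have hK2q : (τ + 3 ^ r * X) * q ≤ K' * q := mul_le_mul_of_nonneg_right hK2 hq.le
  have hK3q : (b * τ + a * b + 2) * q ≤ K' * q := mul_le_mul_of_nonneg_right hK3 hq.le
  have haaq : 0 < a * a * q := mul_pos haa hq
  have habq : 0 < a * b * q := mul_pos habm hq
  have hvt : v ≤ t := by linarith only [hv', hτq]
  have hv0 : 0 ≤ v := by linarith only [hv', ht0, hK4q, haaq, hq]
  have hvq : q ≤ v := by linarith only [hv', ht0, hK4q, haaq, hq]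
  have ht1' : t ≤ 1 := by linarith only [ht1, hKq]
  have hv1 : v ≤ 1 := hvt.trans ht1'
  have hdN := abs_le.1 (hdv (r + 1) (by omega))
  rw [hbE] at hdN
  have eN1 : b * ((-τ - 0) * q) = -(b * τ * q) := by ring
  rw [eN1] at hdN
  obtain ⟨Nv, hNv⟩ : ∃ Nv, Nv = L (r + 1) v v := ⟨_, rfl⟩
  obtain ⟨Nt, hNt⟩ : ∃ Nt, Nt = L (r + 1) t t := ⟨_, rfl⟩
  obtain ⟨Uv, hUv⟩ : ∃ Uv, Uv = Pool.SWC.Lx L r v := ⟨_, rfl⟩
  have hUvr : L r v v ≤ Uv := by
    rw [hUv]
    exact Pool.SWC.le_lx L le_rfl v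
  have hNlow : v ≤ Nv := by rw [hNv]; exact R.low_at (by omega) hv0 le_rfl hv1
  have hvnv : vn ≤ v := by
    have := mul_nonneg hpzD hq.le
    linarith only [hvn, this]
  -- the exponents
  have hEr : ∀ i ≤ r, Pool.W.PN18.eP r L (e₀ - μ / 2) v i = max 0 (Uv - L i v v) := fun i hi => by
    rw [Pool.W.PN18.eP_lt L _ _ hi, hUv]
  have hUvK : Uv + 3 * K' * q ≤ 1 := by
    rw [hUv]
    have h1 := Pool.SWC.lx_le L (r := r) (w := v) (x := 1 - 3 * K' * q) fun i hi => by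
      have h2 := hroom i (by omega)
      linarith only [h2]
    linarith only [h1]
  have hE0 : ∀ i ≤ r, 0 ≤ Pool.W.PN18.eP r L (e₀ - μ / 2) v i ∧
      L i v v + Pool.W.PN18.eP r L (e₀ - μ / 2) v i + 3 * K' * q ≤ 1 := by
    intro i hi
    rw [hEr i hi]
    refine ⟨le_max_left _ _, ?_⟩
    have h1 := hroom i (by omega)
    rcases max_choice 0 (Uv - L i v v) with h3 | h3
    · rw [h3]
      linarith only [h1]
    · rw [h3]
      linarith only [hUvK]
  have hL0 : ∀ i ≤ r + 1, 0 ≤ L i v v := fun i hi =>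
    hv0.trans (R.low_at (by omega) hv0 le_rfl hv1)
  have hUvρ : Uv + μ ≤ ρ₀ := by rw [hUv]; exact b6
  have hUv0 : 0 ≤ Uv := (hL0 r (by omega)).trans hUvr
  -- the sum over the places
  have hf : ∀ l, Pool.AJW.aX r (X * q) l ≤ 3 ^ r * X * q := fun l => by
    unfold Pool.AJW.aX
    have h1 : (3 : ℝ) ^ (r - 1 - l) ≤ 3 ^ r := pow_le_pow_right₀ (by norm_num) (by omega)
    have h2 := mul_le_mul_of_nonneg_right h1 (mul_pos hX0 hq).le
    linarith only [h2]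
  have hf2 : ∀ l, X * q ≤ Pool.AJW.aX r (X * q) l := fun l => Pool.AJW.aX_ge (mul_pos hX0 hq).le l
  have hf3 : ∀ l < r, ∀ l' < l, 3 * Pool.AJW.aX r (X * q) l ≤ Pool.AJW.aX r (X * q) l' := fun l hl l' hl' => by
    unfold Pool.AJW.aX
    have h1 : (3 : ℝ) ^ (r - 1 - l + 1) ≤ 3 ^ (r - 1 - l') :=
      pow_le_pow_right₀ (by norm_num) (by omega)
    rw [pow_succ] at h1
    have h2 := mul_le_mul_of_nonneg_right h1 (mul_pos hX0 hq).le
    linarith only [h2]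
  have hXq : (2 * (a * a) + 2) * q ≤ X * q := mul_le_mul_of_nonneg_right hX2 hq.le
  have hℓ2q : (3 ^ r * X + a + 1) * q ≤ ℓ * q := mul_le_mul_of_nonneg_right hℓ2 hq.le
  have hℓ3q : (a * a + a + 1) * q ≤ ℓ * q := mul_le_mul_of_nonneg_right hℓ3 hq.le
  have hℓ1q : (kf + τ) * q ≤ ℓ * q := mul_le_mul_of_nonneg_right hℓ1 hq.le
  have hkf2q : (a * b + 2 * (r + 1) * φ + 1) * q ≤ kf * q :=
    mul_le_mul_of_nonneg_right hkf2 hq.le
  have hφqq : φ * q ≤ 1 / 8 * q := mul_le_mul_of_nonneg_right hφ1 hq.le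
  have hkfq : 3 ^ r * X * q ≤ kf * q := mul_le_mul_of_nonneg_right hkf1 hq.le
  have h3Xq : X * q ≤ 3 ^ r * X * q := mul_le_mul_of_nonneg_right h3X hq.le
  have hXq0 : 0 < X * q := mul_pos hX0 hq
  -- the near windows of `G`
  obtain ⟨G', hG'⟩ : ∃ G' : Set ℝ, G' = {w | w ∈ G ∧ |w - g| ≤ μ} := ⟨_, rfl⟩
  have hGm : ∀ w, w ∈ G' ↔ w ∈ G ∧ |w - g| ≤ μ := fun w => by rw [hG']; rfl
  have hvG' : v ∈ G' := (hGm v).2 ⟨hvG, by rw [hv]; exact hnear _ hvK⟩
  have hch : ∀ w ∈ G', ∃ (u₁ : ℝ) (rd : ℕ → ℝ), (∀ i, 0 ≤ i → i ≤ r → 0 ≤ rd i) ∧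
      Pool.LA91.Chn S c 0 (r + 1) w w u₁ (fun l => L l w w) rd := fun w hw => by
    obtain ⟨rd, h1, h2⟩ := hcu w ((hGm w).1 hw).1
    exact ⟨_, rd, fun i _ hi => h1 i (by omega), h2⟩
  have hchl : Pool.RW37.ChlG S c 0 (r + 1) (fun l x => L l x x) G' := by
    intro w hw
    obtain ⟨rd, h1, h2⟩ := hcu w ((hGm w).1 hw).1
    obtain ⟨rk', E'', c1, -, c3, -, -, -, -, -, -, c10⟩ := halt w ((hGm w).1 hw).1 ((hGm w).1 hw).2
    refine ⟨Pool.SWC.Lx L r w, fun i => if i = r + 1 then rk' else rd i, fun i _ hi => ?_, ?_, E'', c3,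
      ?_⟩
    · by_cases h3 : i = r + 1
      · show 0 ≤ if i = r + 1 then rk' else rd i
        rw [if_pos h3]
        exact c1
      · show 0 ≤ if i = r + 1 then rk' else rd i
        rw [if_neg h3]
        exact h1 i (by omega)
    · refine ⟨h2.hr, h2.inj, h2.w0, h2.wu0, h2.u0, h2.wu1, h2.u1, h2.s0, fun i a b => ?_,
        fun i a b => ?_, h2.base, h2.pre, h2.ful⟩
      · show (if i = r + 1 then rk' else rd i) < 1
        rw [if_neg (by omega)]
        exact h2.r1 i a b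
      · show Pool.LA91.Att S ((range i).image c) (c i) w (L i w w) (if i = r + 1 then rk' else rd i)
        rw [if_neg (by omega)]
        exact h2.att i a b
    · show Pool.V0F.LbU S ((range (r + 1)).image c) (c (r + 1)) w (L (r + 1) w w)
        (if r + 1 = r + 1 then rk' else rd (r + 1)) E''
      rw [if_pos rfl]
      exact c10
  -- the rows
  have hrows := Pool.RW37.rows_ps htm hpos (Ψ := Pool.PN18.PsQ (Pool.ALT.LbF ((range (r + 1)).image c) (c (r + 1))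
      D e₀ ρ₀ (L (r + 1) vn vn - e / 16) vn) c r D (max D D * max 1 D) vn v t p₁ p₂
      (e₀ - μ / 2) (Pool.SWC.Lx L r v + μ / 4) (L (r + 1) v v - e / 2) pa₁ pa₂ (e₀ - μ / 2)
      (Pool.SWC.Lx L r t + μ / 4) (L (r + 1) t t - e / 2) (ℓ * q) e (Pool.W.PN18.eP r L (e₀ - μ / 2) v)
      (fun _ => Pool.SWC.Lx L r v + μ / 4) (fun i => L i v v)
      (Pool.AJW.nX r (fun l x => L l x x) v (X * q)))
    (c := c) (r := r) (K := max D D * max 1 D) (K1 := max D D * max 1 D) (k := k)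
    (sn := fun l x => L l x x) (G := G') (n := Pool.AJW.nX r (fun l x => L l x x) v (X * q))
    (f := Pool.AJW.aX r (X * q)) (Sl := Sl) (E := Pool.W.PN18.eP r L (e₀ - μ / 2) v)
    (rd := fun _ => Pool.SWC.Lx L r v + μ / 4) (v := v) (Q := a * q) (lam := ℓ * q) (ρ := 8 * e)
    (ρ₀ := ms * q) (φ := e) (Λ := a) (h := h) (δ₁ := 2 * ε * q) (g₀ := q) (e := e)
    (by
      rintro J F A V C z z' G₁ G₂ cc ⟨g', h1, h2, h3, h4, h5, h6⟩
      exact ⟨g', h1, h2, h3, h5⟩) hchl hch hv0 hvG' haq.le (fun x hx1 hx2 => ?_)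
    (mul_pos hms0 hq) (by linarith only [he]) he.le (by
      linarith only [hK1q, ht1, hvt, hq]) (fun l hl => ?_) (by rw [hbE]; exact hb)
    (by rw [hbE, haE]; exact hab) (hL0 (r + 1) le_rfl) (fun l _ => rfl)
    (fun l hl l' hl' => ?_) (fun l hl => ?_) (fun l hl => ?_) ?_ hq (fun i hi => ?_)
    (fun i hi => ?_) (fun i hi => ?_) ?_ ?_ (fun Q' hQ1 hQ2 => ?_) (by
      linarith only [hεq]) hh1 hFN hel hk1 hk2 hdl (by rw [hbE]; exact hdlb)
    (by rw [hbE]; exact hph) le_rfl ?_ ?_ ?_ he ?_ (δ := δ * (a * q)) (by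
      rw [haE, hbE]
      exact hδ) N₀
  rotate_left
  · -- the gaps
    obtain ⟨w, w1, w2, w3⟩ := hgap ((x - t) / q) (by
      rw [le_div_iff₀ hq]
      linarith only [hx1, hv']) (by
      rw [div_le_iff₀ hq]
      linarith only [hx2, hv'])
    refine ⟨t + w * q, (hGm _).2 ⟨w2, hnear _ w1⟩, ?_⟩
    have e1 : t + w * q - x = (w - (x - t) / q) * q := by
      field_simp
      ring
    rw [e1, abs_mul, abs_of_pos hq]
    exact mul_le_mul_of_nonneg_right w3 hq.le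
  · -- the slopes
    have h1 : 0 ≤ Sl l ∧ Sl l ≤ a := by
      rcases Nat.lt_trichotomy l r with h1 | h1 | h1
      · have h2 := R.kd l (by omega)
        rw [hκ l h1] at h2
        have h3 : Sl l = 1 := h2
        rw [h3]
        exact ⟨zero_le_one, ha.le⟩
      · rw [h1, haE]
        exact ⟨ha0.le, le_rfl⟩
      · have h2 : l = r + 1 := by omega
        rw [h2, hbE]
        exact ⟨hb.le, hab⟩
    refine ⟨h1.1, h1.2, fun w hw1 hw2 => (hdw l (by omega) w hw1 ?_).trans hεe⟩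
    have := mul_le_mul_of_nonneg_right hτ.le hq.le
    linarith only [hw2, hv', this]
  · have h1 := hf3 l hl l' hl'
    have h2 := hf2 l
    have e1 : a * (a * q) = a * a * q := by ring
    rw [e1]
    linarith only [h1, h2, hXq, he64, haaq, hq]
  · have h2 := hf2 l
    have e1 : a * (a * q) = a * a * q := by ring
    rw [e1]
    linarith only [h2, hXq, he64, haaq, hq]
  · have h1 := hf l
    linarith only [h1, hℓ2q, he64, hq]
  · have e1 : a * (a * q) = a * a * q := by ring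
    rw [e1]
    linarith only [hℓ3q, he64, hq]
  · -- the exponents
    rcases Nat.lt_or_ge i (r + 1) with h1 | h1
    · have h2 := hE0 i (by omega)
      have h3 := hL0 i (by omega)
      exact ⟨h2.1, by linarith only [h2.2, h3, hKq]⟩
    · have h2 : i = r + 1 := by omega
      rw [h2, Pool.W.PN18.eP_last]
      have h3 := hL0 (r + 1) le_rfl
      exact ⟨by linarith only [b3, b4, hμ], by linarith only [b8, h3, hμ]⟩
  · show 0 ≤ Pool.SWC.Lx L r v + μ / 4 ∧ Pool.SWC.Lx L r v + μ / 4 + q ≤ 1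
    rw [← hUv]
    have h2 : 4 * q ≤ (a * a + a * b + 4) * q := by
      linarith only [haaq, habq]
    exact ⟨by linarith only [hUv0, hμ], by linarith only [hUvρ, hρ₀, hμ, hqμ, h2, hq]⟩
  · have h1 := (hE0 i (by omega)).2
    have h2 := hf i
    show L i v v + Pool.AJW.aX r (X * q) i + Pool.W.PN18.eP r L (e₀ - μ / 2) v i + q ≤ 1
    linarith only [h1, h2, hK2q, hτq, hq, hK4q, haaq]
  · rw [haE, hEr r le_rfl, max_eq_right (sub_nonneg.2 hUvr)]
    show L r v v + a * (a * q) + (Uv - L r v v) + q ≤ 1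
    have e1 : a * (a * q) = a * a * q := by ring
    rw [e1]
    linarith only [hUvK, hK4q, hτq, hq, hKq]
  · rw [hbE, Pool.W.PN18.eP_last]
    show L (r + 1) v v + b * (a * q) + (e₀ - μ / 2) + q ≤ 1
    have e1 : b * (a * q) = a * b * q := by ring
    rw [e1]
    have h2 : a * b * q + q ≤ (a * a + a * b + 4) * q := by
      linarith only [haaq, hq]
    linarith only [b8, hqμ, h2, hμ]
  · -- the raw rows
    rw [hbE] at hQ2
    have e1 : b * (a * q) = a * b * q := by ring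
    rw [e1] at hQ2
    have h1 := R.raw (by omega) hε (x := L (r + 1) t t - L (r + 1) v v) (y := Q')
      (by linarith only [hdN.2, hbτ, he, hεq, mul_pos (mul_pos hb ha0) hq]) hQ1
      (by linarith only [hdN.1, hK3q, habq, hεe, he64, hq]) (by
        linarith only [hQ2, hK3q, mul_pos (mul_pos hb hτ0) hq, hq])
      (by
        have := hL0 (r + 1) le_rfl
        show L (r + 1) t t - L (r + 1) v v ≤ L (r + 1) t t
        linarith only [this])
    have e2 : L (r + 1) t t - (L (r + 1) t t - L (r + 1) v v) = L (r + 1) v v := by ring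
    change Pool.OWN68.RawN S ((range (r + 1)).image c) (c (r + 1))
      (L (r + 1) t t - (L (r + 1) t t - L (r + 1) v v)) Q' h (2 * ε * q) at h1
    rw [e2] at h1
    exact h1
  · rw [Pool.W.PN18.eP_last]
    have h1 := min_le_right (8 * e / 8) (q / 2)
    have h2 : 4 * q ≤ (a * a + a * b + 4) * q := by
      linarith only [haaq, habq]
    linarith only [h1, h2, hqμ, hμ]
  · have h1 := min_le_right (8 * e / 8) (q / 2)
    have h2 : 4 * q ≤ (a * a + a * b + 4) * q := by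
      linarith only [haaq, habq]
    show Pool.SWC.Lx L r v + μ / 4 + min (8 * e / 8) (q / 2) ≤ ρ₀
    linarith only [h1, h2, hqμ, hμ, b6]
  · have h1 := min_le_right (8 * e / 8) (q / 2)
    have h2 : 4 * q ≤ (a * a + a * b + 4) * q := by
      linarith only [haaq, habq]
    show π₀ ≤ L (r + 1) v v - min (8 * e / 8) (q / 2)
    linarith only [h1, h2, hqμ, hμ, b7]
  · refine le_min (le_of_eq ?_) (by linarith only [he64, hq])
    ring
  -- the context
  have hmt : (t : ℝ) ≤ 1 := ht1'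
  have hchG : Pool.LA91.ChG S c (r + 1) (fun l x => L l x x) G := ⟨fun w hw => by
    obtain ⟨rd, h1, h2⟩ := hcu w hw
    exact ⟨_, rd, h1, h2⟩⟩
  have hδ' : 0 < δ * (a * q) := mul_pos hδ0 haq
  have hctx := R.fwx htm hκ (by omega) hchG (K := 0) (vv := -τ) (X := X) (φ := φ) (lam := ℓ)
    (kf := kf) ⟨by linarith only [hτ0], hφ0, by
      push_cast
      linarith only [hX1], hX3, hkf1, by linarith only [hℓ1]⟩ htG hXj (by
      linarith only [hK2]) (by linarith only [hK1]) hεφ hpf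
    (E := Pool.W.PN18.eP r L (e₀ - μ / 2) v) (rd := fun _ => Pool.SWC.Lx L r v + μ / 4) (fun i hi => by
      have h2 := hE0 i hi.le
      have h3 := hL0 i (by omega)
      linarith only [h2.2, h3, hKq]) (fun i hi => by
      show 0 ≤ Pool.SWC.Lx L r v + μ / 4
      rw [← hUv]
      linarith only [hUv0, hμ]) (Kc := max D D * max 1 D) hδ' he heφ hNf
  rw [← hv] at hctx
  obtain ⟨rdt, hrt1, hrt2⟩ := hcu t htG
  have hkfq2 : 0 < kf * q := by linarith only [hkfq, h3Xq, hXq0]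
  have hK1' : kf * q + τ * q ≤ ℓ * q := by linarith only [hℓ1q]
  refine ⟨Pool.PN18.psq_psl Pool.ALT.LbF.hs, ?_, ?_, ?_, ?_, ?_, ?_, hvn0, hvn, ?_, ?_, ?_⟩
  · -- the existence
    refine Pool.PN18.psq_ex ?_ hNz le_rfl ?_ ?_ ?_
    · refine Pool.S6C.Bas.mono 0 (hLx e he) ?_
      rintro J - F A ⟨V₁, z, z', g', h1⟩
      have hJ0 : (0 : ℝ) ≤ J := Nat.cast_nonneg J
      refine ⟨V₁, z, z', g', fun i hi1 hi2 => ?_⟩
      refine (h1 i hi1 hi2).mono (Finset.Subset.refl _) ?_ (Nat.floor_le_floor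
        (mul_le_mul_of_nonneg_right ?_ hJ0)) (Nat.floor_le_floor
        (mul_le_mul_of_nonneg_right ?_ hJ0)) le_rfl
      · calc D = D * 1 := (mul_one D).symm
          _ ≤ D * max 1 D := Nat.mul_le_mul_left D (le_max_left 1 D)
          _ = max D D * max 1 D := by rw [max_self]
      · rw [Pool.W.PN18.eP_lt L _ _ (by omega)]
      · show Pool.SWC.Lx L r v + e ≤ Pool.SWC.Lx L r v + μ / 4 + e
        linarith only [hμ]
    · rw [Pool.W.PN18.eP_last]
      linarith only [he]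
    · show Pool.SWC.Lx L r v + μ / 4 ≤ Pool.SWC.Lx L r v + μ / 4 + e
      linarith only [he]
    · show L (r + 1) v v - e ≤ L (r + 1) v v - e / 2
      linarith only [he]
  · exact Pool.PN18.psq_ctx (by omega) hvt hmt hctx
  · rw [haE, hbE] at hrows
    exact hrows.1
  · rw [haE, hbE] at hrows
    exact hrows.2
  · -- the value
    refine Pool.PN18.psq_valN htm hpos (fun J F A V z z' G h => Pool.ALT.LbF.hd J F A V z z' G h) hvnv hvt hmt hr
      (s := L (r + 1) v v + b * (a * q)) ?_ (u₁ := Pool.SWC.Lx L r t) (σ := φ * q) (k := kf * q)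
      (pm := L (r + 1) v v - e / 2) (so := fun l => L l t t) (rdc := rdt)
      (hrt2.take (by omega) (by omega)) hφq ?_ ?_ hpf (fun i hi => ?_) le_rfl ?_ ?_ ?_ ?_ hδ'
    · have e1 : b * (a * q) = b * a * q := by ring
      rw [e1]
      linarith only [hdN.2, hbτ, he, hεq]
    · have e1 : 2 * ((r : ℝ) + 1) * (φ * q) = 2 * (r + 1) * φ * q := by ring
      rw [e1]
      linarith only [hkf2q, habq, hq]
    · linarith only [ht1, hK1', hK1q, hτq, hq]
    · rw [hNf i hi 0 (by norm_num)]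
      push_cast
      linarith only []
    · have := mul_pos (mul_pos hb ha0) hq
      linarith only [hdN.2, hbτ, he, hεq, this]
    · rw [← hNv]
      linarith only [hNlow, hvq, he64, hφqq, hq]
    · have e1 : 2 * ((r : ℝ) + 1) * (φ * q) = 2 * (r + 1) * φ * q := by ring
      have e2 : b * (a * q) = a * b * q := by ring
      rw [e1, e2]
      linarith only [hkf2q, he64, hq]
    · exact heφ
  · -- the decomposition
    refine Pool.PN18.psq_dcp (P₀' := L (r + 1) vn vn - e / 16) (fun J F A V z z' G h => h) ?_ hvnv hv1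
    linarith only [he]
  · show L (r + 1) v v ≤ L (r + 1) v v + q
    linarith only [hq]
  · show L (r + 1) v v - q ≤ L (r + 1) v v
    linarith only [hq]
  · show L (r + 1) vn vn - q ≤ L (r + 1) vn vn
    linarith only [hq]

end Pool.W.PN18
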