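import Pool.Agent.H18.PN.Pyr
import Pool.Agent.H31.W.H18.PN.Pdc
import Pool.Agent.H31.W.H18.PN.Pdd
import Pool.Agent.H3.W.Bas

/-!
# Jointly nonfull pairs at a record of full rate

`grid_ex`: a grid of windows. `pairy_rec`: the record part of `PairY` at windows of full rate, if the
last slope is at most the slope before.
-/

set_option autoImplicit false

namespace Pool.W.PN18

open Pool.PN18

open Finset Real MvPolynomial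
open Pool.Agent.H49.Ent Pool.Agent.H32.Dense Pool.STK Pool.KA Pool.KSAT Pool.K2S Pool.PB Pool.GEN
open Pool.S6C Pool.RCD Pool.LA91 Pool.OWN68 Pool.AJW Pool.AJX Pool.CHT Pool.PKG Pool.ALT
open Pool.V0F (LbU)


/-- **Jointly nonfull pairs at a record of full rate.** -/
theorem pairy_rec {r D : ℕ} (hr : 1 ≤ r) {S : Pool.PB.PCl (r + 2)} {al : ℝ} {g₀ : ℝ → ℝ}
    {P : List (Fin (r + 2)) × Fin (r + 2) → ℝ → ℝ → ℝ}
    {θ : ℝ} {P₂ : ℕ → List (Fin (r + 2)) × Fin (r + 2) → ℝ → ℝ → ℝ} {θ₂ Eb e₂ : ℕ → ℝ}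
    {c : ℕ → Fin (r + 2)} {Pt : ℝ → ℝ → ℝ} {rt : ℝ → ℝ} {h K₀ g : ℝ} {L T : ℕ → ℝ → ℝ → ℝ}
    {Sl : ℕ → ℝ} {κ : ℕ → Pool.PKG.Kg} {G : Set ℝ} {S₀ N : ℕ} {A V : ℕ → ℝ} {S₂ N' : ℕ} {V' : ℕ → ℝ}
    {K' ε q t : ℝ} {S₁ : Pool.PB.PCl (r + 2)} (hne₁ : S₁.Ne)
    (hs₁ : ∀ (τ : ℝ) (J : ℕ) (F : Pool.KA.Fam (r + 2) J) (A : F.Ω → Prop), S₁.St τ J F A → S.St τ J F A)
    (R : Pool.W.PKG.RecG S₁ al g₀ P θ P₂ θ₂ Eb e₂ c Pt rt h K₀ g L T Sl κ G S₀ N A V S₂ N' V' K' ε q t)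
    (hκ : ∀ l < r, κ l = .one) (ha : 1 < Sl r) (hb : 0 < Sl (r + 1)) (hab : Sl (r + 1) ≤ Sl r)
    (hh1 : h ≤ 1) (hε : 0 < ε) (hK₀ : 0 < K₀)
    (hcu₀ : ∀ w ∈ G, ∃ rd : ℕ → ℝ, (∀ l < r + 1, 0 ≤ rd l) ∧
      Pool.LA91.Chn S c 0 (r + 1) w w (Pool.SWC.Lx L r w) (fun l => L l w w) rd)
    {e₀ ρ₀ π₀ μ : ℝ} (hμ : 0 < μ)
    (hρ₀ : ρ₀ + μ ≤ 1) (halt₀ : ∀ w ∈ G, |w - g| ≤ μ → Pool.W.ALT.AltC S c r L e₀ ρ₀ π₀ μ w)
    (hnear : ∀ x : ℝ, |x| ≤ K' → |t + x * q - g| ≤ μ)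
    (hlab : ∀ k < N', (∃ E : ℝ, E + μ ≤ e₀ ∧
      Pool.ALT.AlW S₁ c r (c (r + 1)) D (t + V' k * q) (L (r + 1) (t + V' k * q) (t + V' k * q))
        (L r (t + V' k * q) (t + V' k * q)) E
        (Pool.SWC.Lx L r (t + V' k * q) - L r (t + V' k * q) (t + V' k * q))
        (Pool.SWC.Lx L r (t + V' k * q))) ∧
      ∀ e : ℝ, 0 < e → Pool.S6C.Bas S₁ (fun J F A => ∃ (V₁ : Type) (z : Pool.GEN.PtT F → V₁) (z' : Pool.GEN.LnT F → V₁)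
        (g : V₁ → ℕ → MvPolynomial (Option (Fin (r + 2))) ℝ),
        Pool.AJX.LbX F c 0 (r + 1) D e (fun i => max 0 (Pool.SWC.Lx L r (t + V' k * q) -
          L i (t + V' k * q) (t + V' k * q))) (t + V' k * q)
          (fun _ => Pool.SWC.Lx L r (t + V' k * q))
          (fun l => L l (t + V' k * q) (t + V' k * q)) A z z' g))
    {el dl : ℝ} {k₀ : ℕ} (hel : 0 ≤ el) (hdl : 0 ≤ dl) (hdlb : dl ≤ Sl (r + 1) * Real.log 2)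
    (hful : ∀ S' : Pool.PB.PCl (r + 2), S'.Ne → Pool.ALT.SubC S' S → ∀ w₀ : ℝ, 0 < w₀ → w₀ < g →
      Pool.ALT.AltE S' ((range (r + 1)).image c) (c (r + 1)) (max D D * max 1 D) e₀ ρ₀ π₀ w₀ →
      ∃ φ : ℝ, Sl (r + 1) * Real.log 2 - dl ≤ φ ∧ ∀ k ≥ k₀, Pool.ALT.AltAt S ((range (r + 1)).image c)
        ((range r).image c) (c (r + 1)) (max D D * max 1 D) e₀ ρ₀ π₀ (fun w => L (r + 1) w w) g
        φ el k) (hk₀ : (K₀ + Pool.PKG.pzT (Sl r)) * q ≤ (1 / 2) ^ k₀)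
    -- the windows
    {M : ℕ} {W : ℕ → ℝ} (hW0 : W 0 = -Pool.PKG.pzT (Sl r) - Pool.PKG.pzD (Sl r) (Sl (r + 1)))
    (hW1 : W (M + 1) = -Pool.PKG.pzT (Sl r)) (hW2 : W (2 * M + 1 + 1) = 0) (hWm : ∀ k, W k ≤ W (k + 1))
    {ms : ℝ} (hms0 : 0 < ms) (hWs : ∀ k, W (k + 1) - W k ≤ ms)
    (hWb : ∀ k ≤ 2 * M + 1 + 1, -Pool.PKG.pzT (Sl r) - Pool.PKG.pzD (Sl r) (Sl (r + 1)) ≤ W k ∧ W k ≤ 0)
    (hWy : ∀ y, -Pool.PKG.pzT (Sl r) ≤ y → y ≤ 0 → ∃ k ≤ 2 * M + 1 + 1, |W k - y| ≤ ms)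
    (hWin : ∀ k ≤ 2 * M + 1 + 1, ∃ j < N', V' j = W k) (hWx : ∃ j < N', V' j = -(K₀ + 1))
    {X φ kf ℓ e' : ℝ} (hWj : ∀ k ≤ r, ∃ j < N', V' j = Pool.AJW.jfV r (-Pool.PKG.pzT (Sl r)) X k)
    -- the numbers
    (hX1 : 2 * (6 * Pool.PKG.pzT (Sl r)) ≤ X) (hX2 : 2 * (Sl r * Sl r) + 2 ≤ X)
    (hX3 : 32 * (r + 1) * φ ≤ X) (hkf1 : 3 ^ r * X ≤ kf)
    (hkf2 : Sl r * Sl (r + 1) + 2 * (r + 1) * φ + 1 ≤ kf) (hℓ1 : kf + Pool.PKG.pzT (Sl r) ≤ ℓ)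
    (hℓ2 : 3 ^ r * X + Sl r + 1 ≤ ℓ) (hℓ3 : Sl r * Sl r + Sl r + 1 ≤ ℓ) (hK1 : ℓ + 1 ≤ K')
    (hK2 : Pool.PKG.pzT (Sl r) + 3 ^ r * X ≤ K')
    (hK3 : Sl (r + 1) * Pool.PKG.pzT (Sl r) + Sl r * Sl (r + 1) + 2 ≤ K')
    (hK4 : Sl r * Sl r + Pool.PKG.pzT (Sl r) + 2 ≤ K')
    (hK5 : Pool.PKG.pzT (Sl r) + Pool.PKG.pzD (Sl r) (Sl (r + 1)) + K₀ + 1 ≤ K')
    (hφ0 : 0 < φ) (hφ1 : φ ≤ 1 / 8) (hεφ : 2 * ε ≤ φ) (he' : 0 < e') (he1 : e' ≤ φ / 8)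
    (he2 : e' ≤ 1 / 64) (hεe : 128 * ε ≤ e')
    (hbτ : 2 * e' ≤ Sl (r + 1) * (Pool.PKG.pzT (Sl r) - Sl r)) (hams : Sl r * ms ≤ e' / 32)
    (hqμ : (Sl r * Sl r + Sl r * Sl (r + 1) + 4) * q ≤ μ / 4) {pf : ℕ → ℝ} {Nf : ℕ → ℕ → ℝ}
    (hpf : ∀ l < r, L l t t - φ * q ≤ pf l)
    (hNf : ∀ l < r, ∀ j ≤ 1, Nf l j = L l t t + kf * q - (j : ℕ) * t) {δ : ℝ} (hδ0 : 0 < δ)
    (hδ1 : (8 * r + 49) * e' ≤ δ * Sl r / 4) (hδ2 : el * (2 * (K₀ + Pool.PKG.pzT (Sl r))) ≤ δ * Sl r / 4)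
    (hδ3 : dl ≤ δ / 4) (N₀ : ℕ) :
    ∃ S' : Pool.PB.PCl (r + 2), S'.Ne ∧
      (∀ (τ : ℝ) (J : ℕ) (F : Pool.KA.Fam (r + 2) J) (A : F.Ω → Prop), S'.St τ J F A → S.St τ J F A) ∧
      ∃ (Ψ : Pool.PN18.Fm2 (r + 2)) (I₂ : Finset (Fin (r + 2))) (e E₂ r₂ p₂ m₁ ρ : ℝ) (E rd : ℕ → ℝ)
        (vn Pn En Rn : ℝ) (K₁ : ℕ), 0 < e ∧ e ≤ e' * q ∧ 3 ^ r * X * q < m₁ ∧ ρ < 1 ∧
        (∀ i ≤ r, 0 ≤ E i ∧ L i (t + -Pool.PKG.pzT (Sl r) * q) (t + -Pool.PKG.pzT (Sl r) * q) + E i + m₁ ≤ 1 ∧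
          0 ≤ rd i ∧ rd i ≤ ρ) ∧
        t + -Pool.PKG.pzT (Sl r) * q - Pool.PKG.pzD (Sl r) (Sl (r + 1)) * q ≤ vn ∧
        Pool.PKG.PairD S' Ψ c r (max D D * max 1 D) I₂ (c (r + 1)) (Sl r) (Sl (r + 1)) (h * Sl (r + 1)) δ
          (ℓ * q) N₀ (t + -Pool.PKG.pzT (Sl r) * q) t q
          (fun i => L i (t + -Pool.PKG.pzT (Sl r) * q) (t + -Pool.PKG.pzT (Sl r) * q))
          (Pool.AJW.nX r (fun l x => L l x x) (t + -Pool.PKG.pzT (Sl r) * q) (X * q)) (fun x => L (r + 1) x x)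
          pf Nf e E₂ r₂ p₂ E rd vn Pn En Rn K₁ := by
  have hq := R.q0
  have ht0 := R.t0
  have ht1 := R.t1
  have htn := abs_le.1 R.near
  have hcu₁ : ∀ w ∈ G, ∃ rd : ℕ → ℝ, (∀ l < r + 1, 0 ≤ rd l) ∧
      Pool.LA91.Chn S₁ c 0 (r + 1) w w (Pool.SWC.Lx L r w) (fun l => L l w w) rd := fun w hw => by
    obtain ⟨rd, h1, h2⟩ := hcu₀ w hw
    exact ⟨rd, h1, h2.sub hs₁⟩
  have halt₁ : ∀ w ∈ G, |w - g| ≤ μ → Pool.W.ALT.AltC S₁ c r L e₀ ρ₀ π₀ μ w := fun w hw hw' =>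
    Pool.W.PN18.altC_sub hs₁ (halt₀ w hw hw')
  obtain ⟨a, haE⟩ : ∃ a, a = Sl r := ⟨_, rfl⟩
  obtain ⟨b, hbE⟩ : ∃ b, b = Sl (r + 1) := ⟨_, rfl⟩
  obtain ⟨τ, hτE⟩ : ∃ τ, τ = Pool.PKG.pzT (Sl r) := ⟨_, rfl⟩
  have hτa : Sl r < Pool.PKG.pzT (Sl r) := Pool.PKG.pzT_gt ha
  have ha0 : 0 < Sl r := by linarith only [ha]
  have hfl : 0 < (⌊Sl (r + 1)⌋₊ : ℝ) + 1 - Sl (r + 1) := by
    have := Nat.lt_floor_add_one (Sl (r + 1))
    linarith only [this]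
  have hD0 : 0 < Pool.PKG.pzD (Sl r) (Sl (r + 1)) := by
    unfold Pool.PKG.pzD
    positivity
  have hwin : ∀ x : ℝ, (∃ j < N', V' j = x) → t + x * q ∈ G := fun x hx => by
    obtain ⟨j, hj, e⟩ := hx
    rw [← e]
    exact R.memG.2 j hj
  have halc : ∀ x : ℝ, (∃ j < N', V' j = x) → Pool.W.ALT.AlC S₁ c r D L e₀ μ (t + x * q) := fun x hx => by
    obtain ⟨j, hj, e⟩ := hx
    rw [← e]
    exact (hlab j hj).1
  have haa : 0 < Sl r * Sl r := mul_pos ha0 ha0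
  have hab0 : 0 < Sl r * Sl (r + 1) := mul_pos ha0 hb
  have hτ0 : 0 < Pool.PKG.pzT (Sl r) := by linarith only [ha0, hτa]
  have he : 0 < e' * q := mul_pos he' hq
  have hεq : 0 < ε * q := mul_pos hε hq
  have hK50 : 0 < K' := by linarith only [hK5, hτ0, hD0, hK₀]
  have hK5q : (Pool.PKG.pzT (Sl r) + Pool.PKG.pzD (Sl r) (Sl (r + 1)) + K₀ + 1) * q ≤ K' * q :=
    mul_le_mul_of_nonneg_right hK5 hq.le
  have hτq : 0 < Pool.PKG.pzT (Sl r) * q := mul_pos hτ0 hq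
  have hDq : 0 < Pool.PKG.pzD (Sl r) (Sl (r + 1)) * q := mul_pos hD0 hq
  have hK₀q : 0 < K₀ * q := mul_pos hK₀ hq
  have hWK : ∀ k ≤ 2 * M + 1 + 1, |W k| ≤ K' := fun k hk => by
    obtain ⟨h1, h2⟩ := hWb k hk
    rw [abs_of_nonpos h2]
    linarith only [h1, hK5, hK₀]
  have hWG : ∀ k ≤ 2 * M + 1 + 1, t + W k * q ∈ G := fun k hk => hwin _ (hWin k hk)
  have hvG : t + -Pool.PKG.pzT (Sl r) * q ∈ G := by
    rw [← hW1]
    exact hWG _ (by omega)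
  have htG : t ∈ G := by
    have h1 := hWG (2 * M + 1 + 1) le_rfl
    rwa [hW2, zero_mul, add_zero] at h1
  have hvK : |-Pool.PKG.pzT (Sl r)| ≤ K' := by
    rw [← hW1]
    exact hWK _ (by omega)
  have hDK : D ≤ max D D * max 1 D := by
    calc D = D * 1 := (mul_one D).symm
      _ ≤ D * max 1 D := Nat.mul_le_mul_left D (le_max_left 1 D)
      _ = max D D * max 1 D := by rw [max_self]
  -- the labels at an earlier window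
  have hxK : |-(K₀ + 1)| ≤ K' := by
    rw [abs_neg, abs_of_pos (by linarith only [hK₀])]
    linarith only [hK5, hτ0, hD0]
  obtain ⟨ph, hph, hAt⟩ := hful S₁ hne₁ hs₁ (t + -(K₀ + 1) * q)
    (by linarith only [ht0, hK5q, hτq, hDq]) (by linarith only [htn.2, hq]) (by
      obtain ⟨rk, E', b1, b2, b3, b4, b5, b6, b7, b8, b9, b10⟩ := halt₁ _ (hwin _ hWx)
        (hnear _ hxK)
      exact (halc _ hWx).lb b6 hDK hμ le_rfl (by linarith only [b7]))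
  -- the scale
  obtain ⟨k, hk, hk1, hk2⟩ := Pool.ALT.pow_near (mul_pos (by linarith only [hK₀, hτ0] :
    0 < K₀ + pzT (Sl r)) hq) hk₀
  -- the natural labels
  have hbms : Sl (r + 1) * ms * q ≤ e' / 32 * q := by
    have h1 := mul_le_mul_of_nonneg_right hab hms0.le
    exact mul_le_mul_of_nonneg_right (h1.trans hams) hq.le
  have h4q : 4 * q ≤ μ / 4 := by
    have : 4 * q ≤ (Sl r * Sl r + Sl r * Sl (r + 1) + 4) * q := by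
      linarith only [mul_pos haa hq, mul_pos hab0 hq]
    exact this.trans hqμ
  have he2q : e' * q ≤ 1 / 64 * q := mul_le_mul_of_nonneg_right he2 hq.le
  have hεeq : 128 * ε * q ≤ e' * q := mul_le_mul_of_nonneg_right hεe hq.le
  obtain ⟨S', c1, c2, R', p₁, p₂, pa₁, pa₂, c4⟩ := Pool.W.ALT.pd_cls R hcu₁ hμ hρ₀ halt₁ hnear
    (M₁ := M) (M₂ := 2 * M + 1) (by omega) (fun k _ => hWm k) hWK hWG hab hb.le
    (ms := ms) (e := e' * q) (fun k _ => hWs k) he (by linarith only [he2q, hq])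
    (by linarith only [hbms, hεeq]) (by linarith only [he2q, h4q, hq])
    (by rw [hW0]; linarith only [ht0, hK5q, hK₀q]) (by
      rw [hW2, zero_mul, add_zero]
      linarith only [ht1, mul_pos hK50 hq]) (halc _ (hWin 0 (by omega)))
    (halc _ (hWin (M + 1) (by omega))) (halc _ (hWin (2 * M + 1 + 1) le_rfl))
  rw [hW1, hW2, zero_mul, add_zero] at c4
  have hlv : ∀ e : ℝ, 0 < e → Pool.S6C.Bas S' (fun J F A => ∃ (V₁ : Type) (z : Pool.GEN.PtT F → V₁)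
      (z' : Pool.GEN.LnT F → V₁) (g : V₁ → ℕ → MvPolynomial (Option (Fin (r + 2))) ℝ),
      Pool.AJX.LbX F c 0 (r + 1) D e (fun i => max 0 (Pool.SWC.Lx L r (t + -Pool.PKG.pzT (Sl r) * q) -
        L i (t + -Pool.PKG.pzT (Sl r) * q) (t + -Pool.PKG.pzT (Sl r) * q))) (t + -Pool.PKG.pzT (Sl r) * q)
        (fun _ => Pool.SWC.Lx L r (t + -Pool.PKG.pzT (Sl r) * q))
        (fun l => L l (t + -Pool.PKG.pzT (Sl r) * q) (t + -Pool.PKG.pzT (Sl r) * q)) A z z' g) := fun e he => by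
    obtain ⟨j, hj, hj'⟩ := hWin (M + 1) (by omega)
    have h1 := (hlab j hj).2 e he
    rw [hj', hW1] at h1
    exact Pool.S6C.Bas.sub c2 h1
  have PD := Pool.W.PN18.paird_of (D := D) hr R' hκ rfl rfl ha hb hab hτa hh1 hε (fun w hw => by
      obtain ⟨rd, h1, h2⟩ := hcu₁ w hw
      exact ⟨rd, h1, h2.sub c2⟩) hμ hρ₀ (fun w hw hw' => Pool.W.PN18.altC_sub c2 (halt₁ w hw hw')) hnear
    (k := k) (ph := ph) (el := el) (dl := dl) (((hAt k hk).sub hs₁).sub c2) hel hdl hdlb hph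
    (by linarith only [htn.1, hk1]) (by
      have := mul_le_mul_of_nonneg_right hτa.le hq.le
      linarith only [htn.2, hk1, this, hτq])
    (vn := t + W 0 * q) (e := e' * q) c4 hlv
    (by rw [hW0]; linarith only [ht0, hK5q, hK₀q, hq]) (by rw [hW0]; linarith only []) hD0.le htG
    hms0 (fun y hy1 hy2 => by
      obtain ⟨k, hk, hk'⟩ := hWy y hy1 (by linarith only [hy2, hτa])
      exact ⟨W k, hWK k hk, hWG k hk, hk'⟩) hvG (X := X) (φ := φ) (kf := kf) (ℓ := ℓ)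
    (fun k hk => hwin _ (hWj k hk)) hX1 hX2 hX3 hkf1 hkf2 hℓ1 hℓ2 hℓ3 hK1 hK2 hK3 hK4 hφ0 hφ1
    hεφ he (by
      have := mul_le_mul_of_nonneg_right he1 hq.le
      linarith only [this]) (by linarith only [he2q]) (by linarith only [hεeq, hεq])
    (by
      have := mul_le_mul_of_nonneg_right hbτ hq.le
      linarith only [this, hεeq, hεq]) hqμ hpf hNf (δ := δ) hδ0 ?_ N₀
  swap
  · -- the errors
    have h1 := mul_le_mul_of_nonneg_right hδ1 hq.le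
    have h2 := mul_le_mul_of_nonneg_right hδ2 hq.le
    have h3 := mul_le_mul_of_nonneg_right hδ3 (mul_pos ha0 hq).le
    have h4 := mul_le_mul_of_nonneg_left hk2 hel
    have h5 := mul_le_mul_of_nonneg_right hams hq.le
    have h6 : 0 < δ * Sl r * q := mul_pos (mul_pos hδ0 ha0) hq
    linarith only [h1, h2, h3, h4, h5, h6, hbms, hεeq, hεq, he]
  -- the room
  have hroom : ∀ j ≤ r + 1, L j (t + -Pool.PKG.pzT (Sl r) * q) (t + -Pool.PKG.pzT (Sl r) * q) + 3 * K' * q < 1 := by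
    intro j hj
    have Wn := R.tg (r + 1) (by omega) (by omega)
    have h1 := Wn.room j hj (t + -Pool.PKG.pzT (Sl r) * q) (by
      rw [add_sub_cancel_left, abs_mul, abs_of_pos hq]
      exact mul_le_mul_of_nonneg_right hvK hq.le)
    have h2 := Wn.Eb0
    linarith only [h1, h2]
  obtain ⟨rk, E', b1, b2, b3, b4, b5, b6, b7, b8, b9, b10⟩ := halt₁ _ hvG (hnear _ hvK)
  have hv0 : 0 ≤ t + -Pool.PKG.pzT (Sl r) * q := by linarith only [ht0, hK5q, hK₀q, hDq, hq]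
  have hv1 : t + -Pool.PKG.pzT (Sl r) * q ≤ 1 := by linarith only [ht1, hτq, mul_pos hK50 hq]
  have hL0 : 0 ≤ Pool.SWC.Lx L r (t + -Pool.PKG.pzT (Sl r) * q) :=
    (hv0.trans (R.low_at (by omega) hv0 le_rfl hv1)).trans (Pool.SWC.le_lx L le_rfl _)
  have hroomx : Pool.SWC.Lx L r (t + -Pool.PKG.pzT (Sl r) * q) + 3 * K' * q ≤ 1 := by
    have h1 := Pool.SWC.lx_le L (r := r) (w := t + -Pool.PKG.pzT (Sl r) * q) (x := 1 - 3 * K' * q)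
      fun i hi => by
        have h2 := hroom i (by omega)
        linarith only [h2]
    linarith only [h1]
  refine ⟨S', c1, fun τ J F A h => hs₁ τ J F A (c2 τ J F A h), _, _, e' * q, _, _, _, 3 * K' * q,
    Pool.SWC.Lx L r (t + -Pool.PKG.pzT (Sl r) * q) + μ / 4, _, _, t + W 0 * q, _, _, _, _, he,
    le_rfl, ?_, ?_, fun i hi => ⟨?_, ?_, ?_, ?_⟩, ?_, PD⟩
  · have h1 := mul_le_mul_of_nonneg_right hK2 hq.le
    linarith only [h1, hτq, mul_pos hK50 hq]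
  · linarith only [b6, hρ₀, hμ]
  · rw [Pool.W.PN18.eP_lt L _ _ hi]
    exact le_max_left _ _
  · rw [Pool.W.PN18.eP_lt L _ _ hi]
    have h1 := hroom i (by omega)
    rcases max_choice 0 (Pool.SWC.Lx L r (t + -Pool.PKG.pzT (Sl r) * q) -
      L i (t + -Pool.PKG.pzT (Sl r) * q) (t + -Pool.PKG.pzT (Sl r) * q)) with h3 | h3
    · rw [h3]
      linarith only [h1]
    · rw [h3]
      linarith only [hroomx]
  · linarith only [hL0, hμ]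
  · exact le_rfl
  · rw [hW0]
    linarith only []

end Pool.W.PN18
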