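import Pool.Agent.H18.PN.Pzu
import Pool.Agent.H31.W.H3.D2G.RecN
import Pool.Agent.H31.W.H5.PN.Jfq
import Pool.Agent.H3.W.Bas
import Pool.Agent.H31.W1.H91.FR.QpG

/-!
# The first jet of a place from a jointly nonfull pair, at all scales of the record

`PairD`: the data of a pair of labels (the place `c r` over the places of slope one, the coordinate
`κ₂` of slope `b`) at the windows `v < w`: rows which are not full, context, value. `PairZ`: they exist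
at every scale of the record, under the hypothesis `Z lam` on the class. `f1uz_of_pair`: `F1UZ`, if
there is no resonance `i b = j a` with `i ≤ a`, `j ≤ b`.
-/

set_option autoImplicit false

namespace Pool.W.PKG

open Pool.PKG

open Finset Real MvPolynomial
open Pool.Agent.H49.Ent Pool.Agent.H32.Dense Pool.STK Pool.KA Pool.KSAT Pool.K2S Pool.PB
open Pool.GEN Pool.S6C Pool.STAT Pool.CHT Pool.GRW Pool.ONE Pool.STA
open Pool.V1E (rstC rst_sub)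
open Pool.LA91 (FaQ sumQ qJets qJet ChG ojet)
open Pool.OWN68 (F1)
open Pool.RCD (vg)
open Pool.AJW Pool.PN18


/-- **The first jet of a place** from the data of a jointly nonfull pair, at a record. -/
theorem f1_of_pairD (K : ℕ) {a b : ℝ} (ha : 1 < a) (hb : 0 < b)
    (hres : ∀ i : ℕ, 1 ≤ i → i ≤ ⌊a⌋₊ → ∀ j : ℕ, 1 ≤ j → j ≤ ⌊b⌋₊ → (i : ℝ) * b ≠ j * a)
    {h' : ℝ} (hh' : 0 < h') (hh1 : h' ≤ a) (hh2 : h' ≤ b) {dd : ℝ} (hdd : 0 < dd) :
    ∃ δ : ℝ, 0 < δ ∧ ∃ N₀ : ℕ, 0 < N₀ ∧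
    ∀ {m : ℕ} {S : Pool.PB.PCl m} {al : ℝ} {g₀ : ℝ → ℝ} {P : List (Fin m) × Fin m → ℝ → ℝ → ℝ}
      {θ : ℝ} {P₂ : ℕ → List (Fin m) × Fin m → ℝ → ℝ → ℝ} {θ₂ Eb e₂ : ℕ → ℝ}
      {c : ℕ → Fin m} {Pt : ℝ → ℝ → ℝ} {rt : ℝ → ℝ} {h K₀ g : ℝ} {L T : ℕ → ℝ → ℝ → ℝ}
      {Sl : ℕ → ℝ} {κ : ℕ → Pool.PKG.Kg} {G : Set ℝ} {S₀ N : ℕ} {A V : ℕ → ℝ} {S₂ N' : ℕ} {V' : ℕ → ℝ}
      {K' ε q t : ℝ}
      (_ : Pool.W.PKG.RecG S al g₀ P θ P₂ θ₂ Eb e₂ c Pt rt h K₀ g L T Sl κ G S₀ N A V S₂ N' V' K' ε q t)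
      {S₁ : Pool.PB.PCl m} (_ : ∀ (τ : ℝ) (J : ℕ) (F : Pool.KA.Fam m J) (A : F.Ω → Prop),
        S₁.St τ J F A → S.St τ J F A) {r : ℕ} (_ : 1 ≤ r) (_ : r + 1 < m)
      (_ : ∀ l < r, κ l = .one) (_ : Sl r = a) (_ : Sl (r + 1) = b)
      (_ : Pool.LA91.ChG S₁ c (r + 1) (fun l x => L l x x) G) {X φ kf ℓ D d₀ : ℝ} (_ : 0 < φ)
      (_ : φ ≤ 1 / 8) (_ : 32 * (r + 1) * φ ≤ X) (_ : 2 * (a * a + (K + 6) * Pool.PKG.pzT a) ≤ X)
      (_ : a * d₀ + b * |D| + a * a + a * b + 8 ≤ X) (_ : 3 ^ r * X + a + (r + 1) ≤ kf)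
      (_ : kf + Pool.PKG.pzT a + a ≤ ℓ) (_ : a * d₀ + b * |D| + a * a + a * b + 8 ≤ ℓ)
      (_ : 0 ≤ d₀) (_ : a * a + 1 ≤ ((⌊a⌋₊ : ℝ) + 1 - a) * d₀)
      (_ : Pool.PKG.pzT a + 3 ^ r * X ≤ K') (_ : d₀ + Pool.PKG.pzT a ≤ K') (_ : ℓ ≤ K')
      (_ : 2 * (a + b) * a ≤ K') (_ : Pool.PKG.pzT a + |D| + 2 ≤ K') (_ : 2 * ε ≤ φ) (_ : 0 ≤ ε)
      (_ : t ∈ G) (_ : ∀ k ≤ r, t + Pool.AJW.jfV r (-Pool.PKG.pzT a) X k * q ∈ G)
      (_ : t + (-Pool.PKG.pzT a - d₀) * q ∈ G) {pf : ℕ → ℝ} {pr : ℝ} {Nf : ℕ → ℕ → ℝ}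
      (_ : ∀ l < r, L l t t - φ * q ≤ pf l) (_ : L r t t - φ * q ≤ pr)
      (_ : ∀ l < r, ∀ j ≤ 1, Nf l j = L l t t + kf * q - (j : ℕ) * t)
      {Ψ : Pool.PN18.Fm2 m} {I₂ : Finset (Fin m)} {e E₂ r₂ p₂ m₁ ρ vn Pn En Rn : ℝ} {E rd : ℕ → ℝ}
      {K₁ : ℕ} (_ : 0 < e) (_ : e ≤ min (φ / 16) (δ * a / 16) * q) (_ : 3 ^ r * X * q < m₁)
      (_ : ρ < 1) (_ : ∀ i ≤ r, 0 ≤ E i ∧ L i (t + -Pool.PKG.pzT a * q) (t + -Pool.PKG.pzT a * q) + E i + m₁ ≤ 1 ∧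
            0 ≤ rd i ∧ rd i ≤ ρ) (_ : t + -Pool.PKG.pzT a * q - D * q ≤ vn)
      (_ : Pool.PKG.PairD S₁ Ψ c r K I₂ (c (r + 1)) a b h' δ (ℓ * q) N₀
            (t + -Pool.PKG.pzT a * q) t q (fun i => L i (t + -Pool.PKG.pzT a * q) (t + -Pool.PKG.pzT a * q))
            (Pool.AJW.nX r (fun l x => L l x x) (t + -Pool.PKG.pzT a * q) (X * q)) (fun x => L (r + 1) x x)
            pf Nf e E₂ r₂ p₂ E rd vn Pn En Rn K₁),
      Pool.OWN68.F1 S₁ (fun J F => Pool.PB.ptr F J) (Pool.RCD.vg t) (fun _ F => F.T)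
          (Pool.LA91.qJets m c 0 r 1 (fun _ _ => t) (fun l _ => pf l) Nf)
          (Pool.LA91.qJet m ((range r).image c) (c r) 1 t pr (L r t t + (a - 1) * q - t)) e (dd * q) := by
  have ha0 : 0 < a := by linarith
  obtain ⟨δ, hδ, N₀, hN₀, H⟩ := Pool.PN18.u_F1 K (ku := min ⌊a⌋₊ (K + 2)) (kn := min ⌊b⌋₊ (K + 2))
    (min_le_right _ _) (min_le_right _ _) ha0 hb
    (fun i h1 h2 j h3 h4 => hres i h1 (h2.trans (min_le_left _ _)) j h3
      (h4.trans (min_le_left _ _))) hh' hh1 hh2 (ε := dd / a) (by positivity)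
  refine ⟨δ, hδ, N₀, hN₀, ?_⟩
  intro m S al g₀ P θ P₂ θ₂ Eb e₂ c Pt rt h K₀ g L T Sl κ G S₀ N A V S₂ N' V' K' ε q t R S₁ hs r
    hr hrm hκ hSa hSb hch X φ kf ℓ D d₀ hφ hφ8 hφX hXK hXd hkf hℓ hℓd hd₀ hda hK1 hK2 hK3 hK4 hK5
    hεφ hε htG hvG huG pf pr Nf hpf hpr hNf Ψ I₂ e E₂ r₂ p₂ m₁ ρ vn Pn En Rn E rd K₁ he hee hm₁
    hρ hE hvn PD
  have hq := R.q0
  have ht0 := R.t0
  have ht1 := R.t1
  obtain ⟨τ, hτ⟩ : ∃ τ, τ = Pool.PKG.pzT a := ⟨_, rfl⟩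
  have hτa : a < τ := hτ ▸ Pool.PKG.pzT_gt ha
  have hτ1 : (a - 1) * (τ + 1) = a * a - 1 / 2 := hτ ▸ Pool.PKG.pzT_mul ha
  have hτ2 : a * a + 1 / 2 ≤ a * τ := hτ ▸ Pool.PKG.pzT_ge ha
  have hDab := Pool.PKG.pzD_mul (a := a) (b := b)
  obtain ⟨dn, hdn⟩ : ∃ dn, dn = Pool.PKG.pzD a b := ⟨_, rfl⟩
  have hvnv := PD.vnv
  rw [← hdn] at hDab hvnv
  rw [← hτ] at hXK hℓ hK1 hK2 hK5 hvG huG hE hvn PD hvnv
  have hτ0 : 0 < τ := by linarith
  have h3X : X ≤ 3 ^ r * X := by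
    have h1 : (1 : ℝ) ≤ 3 ^ r := one_le_pow₀ (by norm_num)
    have h2 : 0 ≤ X := by
      have : 0 ≤ a * d₀ + b * |D| + a * a + a * b + 8 := by positivity
      linarith
    nlinarith
  have hX0 : 0 < X := by
    have : 0 < a * d₀ + b * |D| + a * a + a * b + 8 := by positivity
    linarith
  have hr0 : (1 : ℝ) ≤ r := by exact_mod_cast hr
  have U : Pool.AJW.JfU r K (-τ) X φ ℓ kf :=
    { vv0 := by linarith
      φ0 := hφ
      XK := by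
        rw [neg_neg]
        nlinarith
      φX := hφX
      kfX := by nlinarith
      lamk := by linarith }
  have hF := Pool.PKG.farV_nf (R.farV hκ (by omega) hch U htG hvG (by linarith only [hK1]) hK3 hεφ hpf)
    (Nf' := Nf) fun l _ hl j hj => hNf l hl j hj
  obtain ⟨g₁, hg₁, hJ⟩ := R.jetx hκ (by omega) hch U htG hvG (by linarith only [hK1]) hK3 hεφ hm₁
    hρ hE
  have hJ := hJ (a * a) (by positivity) (by rw [neg_neg]; exact hXK) (by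
    rw [neg_neg, hSa]
    linarith only [hτ2, hφ8, hεφ])
  have e1 : a * a * q = a * (a * q) := by ring
  rw [e1] at hJ
  -- the levels
  have hnear : ∀ x : ℝ, 0 ≤ x → x ≤ K' → |t + -x * q - t| ≤ K' * q := fun x h1 h2 => by
    rw [add_sub_cancel_left, neg_mul, abs_neg, abs_mul, abs_of_nonneg h1, abs_of_pos hq]
    exact mul_le_mul_of_nonneg_right h2 hq.le
  have h3X0 : 0 ≤ 3 ^ r * X := by positivity
  have hdv := abs_le.1 (R.dL r (by omega) _ (hnear τ hτ0.le (by linarith only [hK1, h3X0])))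
  have hdu := abs_le.1 (R.dL r (by omega) _ (hnear (τ + d₀) (by linarith only [hτ0, hd₀])
    (by linarith only [hK2])))
  have hdN := abs_le.1 (R.dL (r + 1) hrm _ (hnear τ hτ0.le (by linarith only [hK1, h3X0])))
  rw [hSa] at hdv hdu
  rw [hSb] at hdN
  have ev : t + -τ * q - t = -(τ * q) := by ring
  have eu : t + -(τ + d₀) * q = t + (-τ - d₀) * q := by ring
  have eu2 : t + (-τ - d₀) * q - t = -((τ + d₀) * q) := by ring
  rw [ev] at hdv hdN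
  rw [eu, eu2] at hdu
  obtain ⟨v, hv⟩ : ∃ v, v = t + -τ * q := ⟨_, rfl⟩
  obtain ⟨vu, hvu⟩ : ∃ vu, vu = t + (-τ - d₀) * q := ⟨_, rfl⟩
  obtain ⟨Lt, hLt⟩ : ∃ Lt, Lt = L r t t := ⟨_, rfl⟩
  obtain ⟨Lv, hLv⟩ : ∃ Lv, Lv = L r v v := ⟨_, rfl⟩
  obtain ⟨Lu, hLu⟩ : ∃ Lu, Lu = L r vu vu := ⟨_, rfl⟩
  obtain ⟨Nv, hNv⟩ : ∃ Nv, Nv = L (r + 1) v v := ⟨_, rfl⟩
  obtain ⟨Nn, hNn⟩ : ∃ Nn, Nn = L (r + 1) vn vn := ⟨_, rfl⟩
  have hεq : 2 * ε * q ≤ φ * q := mul_le_mul_of_nonneg_right hεφ hq.le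
  have hεq0 : 0 ≤ ε * q := mul_nonneg hε hq.le
  have hφq : φ * q ≤ 1 / 8 * q := mul_le_mul_of_nonneg_right hφ8 hq.le
  have hφq0 : 0 < φ * q := mul_pos hφ hq
  have hτq : 0 < τ * q := mul_pos hτ0 hq
  have haq : 0 < a * q := mul_pos ha0 hq
  have hDq : 0 ≤ |D| * q := mul_nonneg (abs_nonneg D) hq.le
  have hDq' : D * q ≤ |D| * q := mul_le_mul_of_nonneg_right (le_abs_self D) hq.le
  have hK5q := mul_le_mul_of_nonneg_right hK5 hq.le
  have hK4q := mul_le_mul_of_nonneg_right hK4 hq.le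
  have hv' : v = t - τ * q := by rw [hv]; ring
  have hvu' : vu = t - (τ + d₀) * q := by rw [hvu]; ring
  have hvn1 : v - |D| * q ≤ vn := by rw [hv]; linarith only [hvn, hDq']
  have hvnt : vn ≤ v := by
    have h1 : 0 ≤ dn * q := by
      refine mul_nonneg ?_ hq.le
      have h2 : 0 < (⌊b⌋₊ : ℝ) + 1 - b := by
        have := Nat.lt_floor_add_one b
        linarith only [this]
      have h3 : 0 ≤ a * b + 4 := by positivity
      rw [← hDab] at h3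
      exact nonneg_of_mul_nonneg_right h3 h2
    rw [hv]
    linarith only [h1, hvnv]
  have hvnN : |vn - t| ≤ K' * q := by
    rw [abs_le]
    constructor
    · linarith only [hvn1, hK5q, hv', hq]
    · linarith only [hvnt, hv', hτq, hK5q, hDq, hq]
  have hdn2 := abs_le.1 (R.dL (r + 1) hrm vn hvnN)
  rw [hSb] at hdn2
  rw [← hv] at hJ hF hE PD hvnv hdv hdN
  rw [← hvu] at hdu huG
  rw [← hLt] at hdv hdu hpr
  rw [← hLv] at hdv
  rw [← hLu] at hdu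
  rw [← hNv] at hdN
  rw [← hNn] at hdn2
  have hv0 : 0 ≤ v := by linarith only [hv', hK5q, hDq, hq, ht0]
  have hvt : v ≤ t := by linarith only [hv', hτq]
  have hvn0 := PD.vn0
  have hKq1 : 0 < K' * q := by linarith only [hK5q, hDq, hτq, hq]
  have hNn0 : vn ≤ Nn := by
    rw [hNn]
    exact R.low_at hrm hvn0 le_rfl (by linarith only [hvnt, hvt, ht1, hKq1])
  have hNv0 : v ≤ Nv := by
    rw [hNv]
    exact R.low_at hrm hv0 le_rfl (by linarith only [hvt, ht1, hKq1])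
  have hp1 : p₂ ≤ Nv + q := by rw [hNv]; exact PD.p₂1
  have hp2 : Nv - q ≤ p₂ := by rw [hNv]; exact PD.p₂2
  have hP1 : Nn - q ≤ Pn := by rw [hNn]; exact PD.Pn1
  have hvvn : v - vn ≤ |D| * q := by linarith only [hvn1]
  have hbvn : b * (v - vn) ≤ b * |D| * q := by
    have := mul_le_mul_of_nonneg_left hvvn hb.le
    linarith only [this]
  have ebv : b * v = b * t - b * (τ * q) := by rw [hv']; ring
  have hNN : Nv ≤ Nn + b * (v - vn) + 2 * (ε * q) := by linarith only [hdN.2, hdn2.1, ebv]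
  have hNN' : 0 ≤ b * (v - vn) := mul_nonneg hb.le (by linarith only [hvnt])
  -- the chain at the windows
  obtain ⟨uu, rdu, hrdu, hcu⟩ := hch.ch vu huG
  obtain ⟨ut, rdt, hrdt, hct⟩ := hch.ch t htG
  have hAu := hcu.att r (Nat.zero_le r) (Nat.lt_succ_self r)
  have hAt := hct.att r (Nat.zero_le r) (Nat.lt_succ_self r)
  have hXq : (a * d₀ + b * |D| + a * a + a * b + 8) * q ≤ X * q :=
    mul_le_mul_of_nonneg_right hXd hq.le
  have hℓq : (a * d₀ + b * |D| + a * a + a * b + 8) * q ≤ ℓ * q :=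
    mul_le_mul_of_nonneg_right hℓd hq.le
  have hℓq2 : (kf + τ + a) * q ≤ ℓ * q := mul_le_mul_of_nonneg_right hℓ hq.le
  have hkfq : (3 ^ r * X + a + (r + 1)) * q ≤ kf * q := mul_le_mul_of_nonneg_right hkf hq.le
  have haX : ∀ l, X * q ≤ Pool.AJW.aX r (X * q) l := fun l => Pool.AJW.aX_ge (by positivity) l
  have had0 : 0 ≤ a * d₀ * q := by positivity
  have haa : 0 ≤ a * a * q := by positivity
  have hab : 0 ≤ a * b * q := by positivity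
  have hbD : 0 ≤ b * |D| * q := by positivity
  have hru : 1 * q ≤ (r : ℝ) * q := mul_le_mul_of_nonneg_right hr0 hq.le
  have hXq0 : 0 ≤ 3 ^ r * X * q := mul_nonneg h3X0 hq.le
  have htm : Pool.GEN.TmC S₁ 6 := fun τ J F A hτ h => R.tmc τ J F A hτ (hs τ J F A h)
  have hmu : Lv - a * d₀ * q - 2 * (ε * q) ≤ min Lu Lv :=
    le_min (by linarith only [hdv.2, hdu.1]) (by linarith only [had0, hεq0])
  have hmn : Nv - b * |D| * q - 2 * (ε * q) - q ≤ min Pn p₂ :=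
    le_min (by linarith only [hNN, hP1, hbvn]) (by linarith only [hp2, hbD, hεq0])
  have hmt : Lt - φ * q ≤ min Lt pr := le_min (by linarith only [hφq0]) hpr
  have hτ1q : (a - 1) * (τ + 1) * q = (a * a - 1 / 2) * q := by rw [hτ1]
  have hmin1 : min (φ / 16) (δ * a / 16) * q ≤ φ / 16 * q :=
    mul_le_mul_of_nonneg_right (min_le_left _ _) hq.le
  have hmin2 : min (φ / 16) (δ * a / 16) * q ≤ δ * a / 16 * q :=
    mul_le_mul_of_nonneg_right (min_le_right _ _) hq.le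
  have k1 : v + 2 * (a + b) * (a * q) ≤ 1 := by
    linarith only [hvt, hK4q, ht1, show 2 * (a + b) * (a * q) = 2 * (a + b) * a * q by ring]
  have k2 : e ≤ φ * q / 8 := by linarith only [hee, hmin1, hφq0]
  have k3 : e ≤ δ * (a * q) / 16 := by linarith only [hee, hmin2]
  have k4 : e ≤ φ * q / 16 := by linarith only [hee, hmin1]
  have k5 : 0 ≤ vu := by
    linarith only [hvu', mul_le_mul_of_nonneg_right hK2 hq.le, ht0]
  have k6 : vu ≤ v := by linarith only [hvu', hv', mul_nonneg hd₀ hq.le]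
  have k7 : Lv + a * (a * q) + φ * q ≤ min Lu Lv + ℓ * q := by
    linarith only [hmu, hℓq, hεq, hφq, hbD, hab, hq]
  have k8 : ∀ l, Lv + a * (a * q) + φ * q ≤ min Lu Lv + (Pool.AJW.aX r (X * q) l - 2 * (φ * q)) :=
    fun l => by linarith only [hmu, hXq, hεq, hφq, hbD, hab, hq, haX l]
  have k9 : Lv + a * (a * q) + φ * q ≤ Lu + ((⌊a⌋₊ : ℝ) + 1) * (v - vu) := by
    have h2 := mul_le_mul_of_nonneg_right hda hq.le
    have h3 : v - vu = d₀ * q := by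
      rw [hv', hvu']
      ring
    rw [h3]
    linarith only [hdv.2, hdu.1, h2, hεq, hφq, hq]
  have k10 : φ * q ≤ min Pn p₂ := le_min
    (by linarith only [hP1, hNn0, hvn1, hv', hK5q, ht0, hφq, hq])
    (by linarith only [hp2, hNv0, hv', hK5q, ht0, hφq, hq, hDq])
  have k11 : p₂ + b * (a * q) + φ * q ≤ min Pn p₂ + ℓ * q := by
    linarith only [hmn, hp1, hℓq, hεq, hφq, haa, had0, hq]
  have k12 : ∀ l, p₂ + b * (a * q) + φ * q ≤ min Pn p₂ + (Pool.AJW.aX r (X * q) l - 2 * (φ * q)) :=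
    fun l => by linarith only [hmn, hp1, hXq, hεq, hφq, haa, had0, hq, haX l]
  have k13 : p₂ + b * (a * q) ≤ Pn + ((⌊b⌋₊ : ℝ) + 1) * (v - vn) := by
    have h2 : ((⌊b⌋₊ : ℝ) + 1 - b) * (dn * q) ≤ ((⌊b⌋₊ : ℝ) + 1 - b) * (v - vn) := by
      refine mul_le_mul_of_nonneg_left (by linarith only [hvnv]) ?_
      have := Nat.lt_floor_add_one b
      linarith only [this]
    have h3 : ((⌊b⌋₊ : ℝ) + 1 - b) * (dn * q) = (a * b + 4) * q := by
      rw [← mul_assoc, hDab]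
    rw [h3] at h2
    linarith only [h2, hp1, hNN, hP1, hεq, hφq, hq]
  have k14 : Lv ≤ Lt := by
    have h1 : 1 * (τ * q) ≤ a * (τ * q) := mul_le_mul_of_nonneg_right ha.le hτq.le
    have h2 : 1 * q ≤ τ * q := mul_le_mul_of_nonneg_right (by linarith only [hτa, ha]) hq.le
    linarith only [hdv.2, h1, h2, hεq, hφq, hq]
  have k15 : Lt + (a - 1) * q - t + v ≤ Lv + a * (a * q) := by
    linarith only [hdv.1, hτ1q, hv', hεq, hφq, hq]
  have k16 : Lt + (a - 1) * q - t + t + φ * q ≤ min Lt pr + (v + ℓ * q - t) := by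
    linarith only [hmt, hℓq2, hv', hφq, hkfq, hXq0, hru, haq, hq]
  have k17 : ∀ l < r, Lt + (a - 1) * q - t + t + φ * q ≤
      min Lt pr + (kf * q - 2 * (l + 1) * (φ * q)) := by
    intro l hl
    have h1 : ((l : ℝ) + 1) ≤ r := by exact_mod_cast hl
    have h2 : 2 * ((l : ℝ) + 1) * (φ * q) ≤ 2 * r * (φ * q) :=
      mul_le_mul_of_nonneg_right (by linarith only [h1]) hφq0.le
    have h3 : (r : ℝ) * (2 * (φ * q)) ≤ r * q :=
      mul_le_mul_of_nonneg_left (by linarith only [hφq, hq]) (by linarith only [hr0])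
    linarith only [hmt, hkfq, h2, h3, hXq0, hφq, hq]
  rw [hLv] at k7 k8 k9 k14 k15
  rw [hLt] at k15 k16 k17
  have hres1 := H htm (c := c) (r := r) hr (κ₂ := c (r + 1)) (I₂ := I₂) (v := v) (w := t)
    (lam := ℓ * q) (q := a * q) (ρ := φ * q) (g₀ := g₁) (p₂ := p₂) (E₂ := E₂) (r₂ := r₂)
    (σ := φ * q) haq hJ k1 hF he k2 k3 k4
    PD.psl PD.ex PD.ctx PD.rw₁ PD.rw₂ PD.val (vu := vu) (Pu := Lu) (ru := rdu r) k5 k6
    (hrdu r (Nat.lt_succ_self r)) (by rw [hLu]; exact hAu) k7 (fun l _ => k8 l)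
    (fun hku => by
      have h1 : min ⌊a⌋₊ (K + 2) = ⌊a⌋₊ := by omega
      rw [h1]
      exact k9)
    (vn := vn) (Pn := Pn) (En := En) (Rn := Rn) (K₁ := K₁) hvn0 hvnt PD.dcp k10 k11
    (fun l _ => k12 l) (fun hkn => by
      have h1 : min ⌊b⌋₊ (K + 2) = ⌊b⌋₊ := by omega
      rw [h1]
      exact k13)
    (P₂ := Lt) (pr := pr) (rt := rdt r) (N₁ := L r t t + (a - 1) * q - t) k14
    (hrdt r (Nat.lt_succ_self r)) (by rw [hLt]; exact hAt) k15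
    (by rw [hLt]; exact k16) (fun l hl => by rw [hLt]; exact k17 l hl)
  have e2 : dd / a * (a * q) = dd * q := by field_simp
  rw [e2] at hres1
  exact hres1


end Pool.W.PKG
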