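import Pool.Agent.H18.PN.Pzs
import Pool.Agent.H31.W.H18.PN.Pzu
import Pool.Agent.H31.W.H19.FLN.F1s
import Pool.Agent.H3.W.Bas
import Pool.Agent.H31.W1.H91.FR.QpG

/-!
# The first jet of a place from jointly nonfull pairs, in a subclass

`F1UY`: `F1US` under a hypothesis `Y` at the record. `PairY`: the data of a jointly nonfull pair at all
scales of the record, in a subclass, under the hypotheses `Z` on the class and `Y` at the record.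
`f1uy_of_pair`: `F1UY` from `PairY`. `F1UY.s`: `F1US`, without the hypothesis.
-/

set_option autoImplicit false

namespace Pool.W.PKG

open Pool.PKG

open Finset Real MvPolynomial
open Pool.Agent.H49.Ent Pool.Agent.H32.Dense Pool.STK Pool.KA Pool.KSAT Pool.K2S Pool.PB
open Pool.GEN Pool.S6C Pool.STAT Pool.CHT Pool.GRW Pool.ONE Pool.STA
open Pool.LA91 (FaQ sumQ qJets qJet ChG ojet)
open Pool.OWN68 (F1)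
open Pool.RCD (vg)
open Pool.AJW Pool.PN18


/-- `F1US` under a hypothesis `Y` at the record. -/
def F1UY (m r : ℕ) (h : ℝ) (Sl : ℕ → ℝ) (κ : ℕ → Pool.PKG.Kg) {ι Λ : Type} (Q : Pool.PKG.PropG m ι)
    (Z : Pool.PKG.PropZ m Λ) (Y : Pool.PKG.PropY m) : Prop :=
  ∀ al : ℝ, 0 < al → ∀ K₀ : ℝ, 0 < K₀ → ∀ S₀ : ℕ, 1 ≤ S₀ →
  ∃ (Kr : ℝ) (Nr : ℕ) (Ar Vr : ℕ → ℝ), 1 ≤ Kr ∧ (∀ k < Nr, -Kr ≤ Vr k ∧ Vr k ≤ Ar k ∧ Ar k ≤ Kr) ∧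
  ∀ S₂ : ℕ, S₀ ≤ S₂ → ∀ dd : ℝ, 0 < dd →
  ∃ (lam : Λ) (kf φ : ℝ), Sl r ≤ kf ∧ 0 < φ ∧
  ∃ (K₁ : ℝ) (Nv : ℕ) (Vv : ℕ → ℝ), (∀ j < Nv, -K₁ ≤ Vv j ∧ Vv j ≤ K₁) ∧ ∀ K' : ℝ, K₁ ≤ K' →
  ∃ ε₀ : ℝ, 0 < ε₀ ∧ ∀ ε : ℝ, 0 < ε → ε ≤ ε₀ →
  ∀ (S : Pool.PB.PCl m) (g₀ : ℝ → ℝ) (P : List (Fin m) × Fin m → ℝ → ℝ → ℝ)
    (θ : ℝ) (P₂ : ℕ → List (Fin m) × Fin m → ℝ → ℝ → ℝ) (θ₂ Eb e₂ : ℕ → ℝ) (c : ℕ → Fin m)
    (Pt : ℝ → ℝ → ℝ) (rt : ℝ → ℝ) (L T : ℕ → ℝ → ℝ → ℝ) (G : Set ℝ) (g : ℝ),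
    IsClosed G → g ∈ G → (∀ l < m, HasDerivAt (fun x => L l x x) (Sl l) g) →
    Z lam S P θ c Pt rt L T κ G g →
    ∃ (p : ℕ → ι) (M : ℕ) (B₀ B₁ : ℕ → ℝ),
    (∀ j < M, B₀ j < B₁ j) ∧ ∀ k₀ : ℕ → ℕ, (∀ j < M, Q (p j) (k₀ j) S P θ c Pt rt L T κ G g) →
    ∃ q₁ : ℝ, 0 < q₁ ∧ ∀ (q t : ℝ) (x : ℕ → ℝ),
      q < q₁ → (∀ j < M, x j ∈ G ∧ t + B₀ j * q ≤ x j ∧ x j ≤ t + B₁ j * q ∧
        Q (p j) (k₀ j) S P θ c Pt rt L T κ G (x j)) →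
      ∀ (N : ℕ) (A V : ℕ → ℝ) (N' : ℕ) (V' : ℕ → ℝ),
      Pool.W.PKG.RecG S al g₀ P θ P₂ θ₂ Eb e₂ c Pt rt h K₀ g L T Sl κ G S₀ N A V S₂ N' V' K' ε q t →
      (∀ k < Nr, ∃ j < N, A j = Ar k ∧ V j = Vr k) → (∀ k < Nv, ∃ j < N', V' j = Vv k) →
      ∀ (pf : ℕ → ℝ) (pr : ℝ) (Nf : ℕ → ℕ → ℝ),
      (∀ l < r, L l t t - φ * q ≤ pf l ∧ pf l ≤ L l t t) →
      L r t t - φ * q ≤ pr → pr ≤ L r t t →
      (∀ l < r, ∀ j ≤ 1, Nf l j = L l t t + kf * q - (j : ℕ) * t) →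
      Y dd S c L q t pf pr Nf →
      ∃ S' : Pool.PB.PCl m, S'.Ne ∧
        (∀ (τ : ℝ) (J : ℕ) (F : Pool.KA.Fam m J) (A : F.Ω → Prop), S'.St τ J F A → S.St τ J F A) ∧
        ∃ e : ℝ, 0 < e ∧ Pool.OWN68.F1 S' (fun J F => Pool.PB.ptr F J) (Pool.RCD.vg t) (fun _ F => F.T)
          (Pool.LA91.qJets m c 0 r 1 (fun _ _ => t) (fun l _ => pf l) Nf)
          (Pool.LA91.qJet m ((range r).image c) (c r) 1 t pr (L r t t + (Sl r - 1) * q - t)) e (dd * q)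

/-- **Jointly nonfull pairs at all scales of the record**, in a subclass, under the hypothesis `Z lam` on
the class and `Y` at the record:
the place `r` and the coordinate `r + 1`. `K`: degree, `h'`: deficit, `D`: the distance of the base
window of the second label; `X`, `kf`, `ℓ`: numbers of digits (`X`: beyond the levels of `v` in the
context, `kf`: far digits, `ℓ`: lattice digits); `φ`, `e₁`: accuracies. -/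
def PairY (m r : ℕ) (h : ℝ) (Sl : ℕ → ℝ) (κ : ℕ → Pool.PKG.Kg) {ι Λ : Type} (Q : Pool.PKG.PropG m ι)
    (Z : Pool.PKG.PropZ m Λ) (Y : Pool.PKG.PropY m) : Prop :=
  ∀ al : ℝ, 0 < al → ∀ K₀ : ℝ, 0 < K₀ → ∀ S₀ : ℕ, 1 ≤ S₀ →
  ∃ (Kr : ℝ) (Nr : ℕ) (Ar Vr : ℕ → ℝ), 1 ≤ Kr ∧ (∀ k < Nr, -Kr ≤ Vr k ∧ Vr k ≤ Ar k ∧ Ar k ≤ Kr) ∧
  ∀ S₂ : ℕ, S₀ ≤ S₂ → ∀ dd : ℝ, 0 < dd →
  ∃ (K : ℕ) (h' D : ℝ), 0 < h' ∧ h' ≤ Sl r ∧ h' ≤ Sl (r + 1) ∧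
  ∀ δ : ℝ, 0 < δ → ∀ N₀ : ℕ, 0 < N₀ →
  ∃ X₀ : ℝ, ∀ X : ℝ, X₀ ≤ X → ∃ φ₀ kf₀ : ℝ, 0 < φ₀ ∧ ∀ φ : ℝ, 0 < φ → φ ≤ φ₀ → ∀ kf : ℝ, kf₀ ≤ kf →
  ∃ ℓ₀ : ℝ, ∀ ℓ : ℝ, ℓ₀ ≤ ℓ → ∀ e₁ : ℝ, 0 < e₁ →
  ∃ (lam : Λ) (K₁ : ℝ) (Nv : ℕ) (Vv : ℕ → ℝ), (∀ j < Nv, -K₁ ≤ Vv j ∧ Vv j ≤ K₁) ∧
  ∀ K' : ℝ, K₁ ≤ K' →
  ∃ ε₀ : ℝ, 0 < ε₀ ∧ ∀ ε : ℝ, 0 < ε → ε ≤ ε₀ →
  ∀ (S : Pool.PB.PCl m) (g₀ : ℝ → ℝ) (P : List (Fin m) × Fin m → ℝ → ℝ → ℝ)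
    (θ : ℝ) (P₂ : ℕ → List (Fin m) × Fin m → ℝ → ℝ → ℝ) (θ₂ Eb e₂ : ℕ → ℝ) (c : ℕ → Fin m)
    (Pt : ℝ → ℝ → ℝ) (rt : ℝ → ℝ) (L T : ℕ → ℝ → ℝ → ℝ) (G : Set ℝ) (g : ℝ),
    IsClosed G → g ∈ G → (∀ l < m, HasDerivAt (fun x => L l x x) (Sl l) g) →
    Z lam S P θ c Pt rt L T κ G g →
    ∃ (p : ℕ → ι) (M : ℕ) (B₀ B₁ : ℕ → ℝ),
    (∀ j < M, B₀ j < B₁ j) ∧ ∀ k₀ : ℕ → ℕ, (∀ j < M, Q (p j) (k₀ j) S P θ c Pt rt L T κ G g) →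
    ∃ q₁ : ℝ, 0 < q₁ ∧ ∀ (q t : ℝ) (x : ℕ → ℝ),
      q < q₁ → (∀ j < M, x j ∈ G ∧ t + B₀ j * q ≤ x j ∧ x j ≤ t + B₁ j * q ∧
        Q (p j) (k₀ j) S P θ c Pt rt L T κ G (x j)) →
      ∀ (N : ℕ) (A V : ℕ → ℝ) (N' : ℕ) (V' : ℕ → ℝ),
      Pool.W.PKG.RecG S al g₀ P θ P₂ θ₂ Eb e₂ c Pt rt h K₀ g L T Sl κ G S₀ N A V S₂ N' V' K' ε q t →
      (∀ k < Nr, ∃ j < N, A j = Ar k ∧ V j = Vr k) → (∀ k < Nv, ∃ j < N', V' j = Vv k) →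
      ∀ (pf : ℕ → ℝ) (pr : ℝ) (Nf : ℕ → ℕ → ℝ),
      (∀ l < r, L l t t - φ * q ≤ pf l ∧ pf l ≤ L l t t) →
      L r t t - φ * q ≤ pr → pr ≤ L r t t →
      (∀ l < r, ∀ j ≤ 1, Nf l j = L l t t + kf * q - (j : ℕ) * t) →
      Y dd S c L q t pf pr Nf →
      ∃ S' : Pool.PB.PCl m, S'.Ne ∧
        (∀ (τ : ℝ) (J : ℕ) (F : Pool.KA.Fam m J) (A : F.Ω → Prop), S'.St τ J F A → S.St τ J F A) ∧
        ∃ (Ψ : Pool.PN18.Fm2 m) (I₂ : Finset (Fin m)) (e E₂ r₂ p₂ m₁ ρ : ℝ) (E rd : ℕ → ℝ)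
          (vn Pn En Rn : ℝ) (K₁ : ℕ), 0 < e ∧ e ≤ e₁ * q ∧ 3 ^ r * X * q < m₁ ∧ ρ < 1 ∧
          (∀ i ≤ r, 0 ≤ E i ∧ L i (t + -Pool.PKG.pzT (Sl r) * q) (t + -Pool.PKG.pzT (Sl r) * q) + E i + m₁ ≤ 1 ∧
            0 ≤ rd i ∧ rd i ≤ ρ) ∧
          t + -Pool.PKG.pzT (Sl r) * q - D * q ≤ vn ∧
          Pool.PKG.PairD S' Ψ c r K I₂ (c (r + 1)) (Sl r) (Sl (r + 1)) h' δ (ℓ * q) N₀
            (t + -Pool.PKG.pzT (Sl r) * q) t q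
            (fun i => L i (t + -Pool.PKG.pzT (Sl r) * q) (t + -Pool.PKG.pzT (Sl r) * q))
            (Pool.AJW.nX r (fun l x => L l x x) (t + -Pool.PKG.pzT (Sl r) * q) (X * q)) (fun x => L (r + 1) x x)
            pf Nf e E₂ r₂ p₂ E rd vn Pn En Rn K₁

/-- **The first jet of the place** `r` at all scales of the record, in a subclass, from jointly nonfull
pairs. -/
theorem f1uy_of_pair {m r : ℕ} (hr : 1 ≤ r) (hrm : r + 1 < m) {h : ℝ} {Sl : ℕ → ℝ} {κ : ℕ → Pool.PKG.Kg}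
    (hκ : ∀ l < r, κ l = .one) (ha : 1 < Sl r) (hb : 0 < Sl (r + 1))
    (hres : ∀ i : ℕ, 1 ≤ i → i ≤ ⌊Sl r⌋₊ → ∀ j : ℕ, 1 ≤ j → j ≤ ⌊Sl (r + 1)⌋₊ →
      (i : ℝ) * Sl (r + 1) ≠ j * Sl r) {ι Λ : Type} {Q : Pool.PKG.PropG m ι} {Z : Pool.PKG.PropZ m Λ}
    {Y : Pool.PKG.PropY m} (hP : Pool.W.PKG.PairY m r h Sl κ Q Z Y) : Pool.W.PKG.F1UY m r h Sl κ (Pool.LA91.sumQ Q Pool.W.LA91.FaQ) Z Y := by
  intro al hal K₀ hK₀ S₀ hS₀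
  obtain ⟨Kr, Nr, Ar, Vr, hKr, hAV, hP⟩ := hP al hal K₀ hK₀ S₀ hS₀
  refine ⟨Kr, Nr, Ar, Vr, hKr, hAV, fun S₂ hS₂ dd hdd => ?_⟩
  obtain ⟨K, h', D, hh', hh1, hh2, hP⟩ := hP S₂ hS₂ dd hdd
  obtain ⟨a, haE⟩ : ∃ a, a = Sl r := ⟨_, rfl⟩
  obtain ⟨b, hbE⟩ : ∃ b, b = Sl (r + 1) := ⟨_, rfl⟩
  rw [← haE] at ha hres hh1
  rw [← hbE] at hb hres hh2
  obtain ⟨δ, hδ, N₀, hN₀, H⟩ := Pool.W.PKG.f1_of_pairD K ha hb hres hh' hh1 hh2 hdd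
  obtain ⟨X₀, hP⟩ := hP δ hδ N₀ hN₀
  have ha0 : 0 < a := by linarith only [ha]
  have hr0 : (0 : ℝ) ≤ r := Nat.cast_nonneg r
  have hK0 : (0 : ℝ) ≤ K := Nat.cast_nonneg K
  have hfl : 0 < (⌊a⌋₊ : ℝ) + 1 - a := by
    have := Nat.lt_floor_add_one a
    linarith only [this]
  obtain ⟨τ, hτ⟩ : ∃ τ, τ = Pool.PKG.pzT a := ⟨_, rfl⟩
  have hτa : a < τ := hτ ▸ Pool.PKG.pzT_gt ha
  have hτ0 : 0 < τ := by linarith only [ha0, hτa]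
  obtain ⟨d₀, hd₀⟩ : ∃ d₀, d₀ = (a * a + 1) / ((⌊a⌋₊ : ℝ) + 1 - a) := ⟨_, rfl⟩
  have hd0 : 0 ≤ d₀ := by rw [hd₀]; positivity
  have hda : a * a + 1 ≤ ((⌊a⌋₊ : ℝ) + 1 - a) * d₀ := by
    rw [hd₀, mul_div_cancel₀ _ hfl.ne']
  have hbD : 0 ≤ b * |D| := mul_nonneg hb.le (abs_nonneg D)
  obtain ⟨Y, hY⟩ : ∃ Y, Y = a * d₀ + b * |D| + a * a + a * b + 8 := ⟨_, rfl⟩
  have hY0 : 0 < Y := by rw [hY]; positivity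
  obtain ⟨X, hX⟩ : ∃ X, X = |X₀| + 2 * (a * a + (K + 6) * τ) + Y := ⟨_, rfl⟩
  have hX1 : X₀ ≤ X := by
    have h1 := le_abs_self X₀
    have h2 : 0 ≤ 2 * (a * a + (K + 6) * τ) := by positivity
    linarith only [hX, h1, h2, hY0]
  have hX2 : 2 * (a * a + (K + 6) * τ) ≤ X := by
    have h1 := abs_nonneg X₀
    linarith only [hX, h1, hY0]
  have hX3 : Y ≤ X := by
    have h1 := abs_nonneg X₀
    have h2 : 0 ≤ 2 * (a * a + (K + 6) * τ) := by positivity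
    linarith only [hX, h1, h2]
  have hX0 : 0 < X := by linarith only [hX3, hY0]
  obtain ⟨φ₀, kf₀, hφ₀, hP⟩ := hP X hX1
  obtain ⟨φ, hφ⟩ : ∃ φ, φ = min φ₀ (min (1 / 8) (X / (32 * (r + 1)))) := ⟨_, rfl⟩
  have hφ0 : 0 < φ := by rw [hφ]; positivity
  have hφ1 : φ ≤ φ₀ := by rw [hφ]; exact min_le_left _ _
  have hφ2 : φ ≤ 1 / 8 := by rw [hφ]; exact (min_le_right _ _).trans (min_le_left _ _)
  have hφ3 : 32 * ((r : ℝ) + 1) * φ ≤ X := by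
    have h1 : φ ≤ X / (32 * (r + 1)) := by
      rw [hφ]
      exact (min_le_right _ _).trans (min_le_right _ _)
    rw [le_div_iff₀ (by positivity)] at h1
    linarith only [h1]
  have h3X : 0 ≤ 3 ^ r * X := by positivity
  obtain ⟨kf, hkf⟩ : ∃ kf, kf = |kf₀| + (3 ^ r * X + a + (r + 1)) := ⟨_, rfl⟩
  have hkf1 : kf₀ ≤ kf := by
    have h1 := le_abs_self kf₀
    linarith only [hkf, h1, h3X, ha0, hr0]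
  have hkf2 : 3 ^ r * X + a + (r + 1) ≤ kf := by
    have h1 := abs_nonneg kf₀
    linarith only [hkf, h1]
  obtain ⟨ℓ₀, hP⟩ := hP φ hφ0 hφ1 kf hkf1
  obtain ⟨ℓ, hℓ⟩ : ∃ ℓ, ℓ = |ℓ₀| + (kf + τ + a) + Y := ⟨_, rfl⟩
  have hℓ1 : ℓ₀ ≤ ℓ := by
    have h1 := le_abs_self ℓ₀
    linarith only [hℓ, h1, hkf2, h3X, hτ0, ha0, hr0, hY0]
  have hℓ2 : kf + τ + a ≤ ℓ := by
    have h1 := abs_nonneg ℓ₀
    linarith only [hℓ, h1, hY0]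
  have hℓ3 : Y ≤ ℓ := by
    have h1 := abs_nonneg ℓ₀
    linarith only [hℓ, h1, hkf2, h3X, hτ0, ha0, hr0]
  obtain ⟨e₁, he₁⟩ : ∃ e₁, e₁ = min (φ / 16) (δ * a / 16) := ⟨_, rfl⟩
  have he0 : 0 < e₁ := by rw [he₁]; positivity
  obtain ⟨lam, K₁, Nv, Vv, hVv, hP⟩ := hP ℓ hℓ1 e₁ he0
  -- the windows
  obtain ⟨V₂, hV₂⟩ : ∃ V₂ : ℕ → ℝ, V₂ = fun k => if k ≤ r then Pool.AJW.jfV r (-τ) X k else
    if k = r + 1 then -τ - d₀ else 0 := ⟨_, rfl⟩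
  obtain ⟨K₂, hK₂⟩ : ∃ K₂, K₂ = τ + 3 ^ r * X + d₀ + |D| + ℓ + 2 * (a + b) * a + 4 := ⟨_, rfl⟩
  have hD0 := abs_nonneg D
  have hab0 : 0 ≤ 2 * (a + b) * a := by positivity
  have hℓ0 : 0 < ℓ := by linarith only [hℓ3, hY0]
  have hV2 : ∀ k < r + 3, -K₂ ≤ V₂ k ∧ V₂ k ≤ K₂ := by
    intro k hk
    rw [hV₂]
    show -K₂ ≤ (if k ≤ r then Pool.AJW.jfV r (-τ) X k else if k = r + 1 then -τ - d₀ else 0) ∧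
      (if k ≤ r then Pool.AJW.jfV r (-τ) X k else if k = r + 1 then -τ - d₀ else 0) ≤ K₂
    by_cases h1 : k ≤ r
    · rw [if_pos h1]
      obtain ⟨h2, h3⟩ := Pool.AJW.jfV_mem (r := r) (vv := -τ) (X := X) (by linarith only [hτ0]) hX0.le h1
      exact ⟨by linarith only [h2, hK₂, hd0, hD0, hab0, hℓ0],
        by linarith only [h3, hK₂, hτ0, h3X, hd0, hD0, hab0, hℓ0]⟩
    · rw [if_neg h1]
      by_cases h2 : k = r + 1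
      · rw [if_pos h2]
        exact ⟨by linarith only [hK₂, h3X, hD0, hab0, hℓ0],
          by linarith only [hK₂, hτ0, h3X, hd0, hD0, hab0, hℓ0]⟩
      · rw [if_neg h2]
        exact ⟨by linarith only [hK₂, hτ0, h3X, hd0, hD0, hab0, hℓ0],
          by linarith only [hK₂, hτ0, h3X, hd0, hD0, hab0, hℓ0]⟩
  obtain ⟨Nw, Vw, hVw, hVw1, hVw2⟩ := Pool.PKG.win_join hVv hV2
  refine ⟨lam, kf, φ, by rw [← haE]; linarith only [hkf2, h3X, hr0], hφ0, max K₁ K₂, Nw, Vw, hVw,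
    fun K' hK' => ?_⟩
  have hKK : K₂ ≤ K' := (le_max_right _ _).trans hK'
  obtain ⟨ε₀, hε₀, hP⟩ := hP K' ((le_max_left _ _).trans hK')
  refine ⟨min ε₀ (φ / 2), lt_min hε₀ (by linarith only [hφ0]), fun ε hε hεε S g₀ P θ P₂ θ₂ Eb e₂ c
    Pt rt L T G g hG hg hder hZ => ?_⟩
  have hεφ : 2 * ε ≤ φ := by
    have := hεε.trans (min_le_right _ _)
    linarith only [this]
  obtain ⟨p, M, B₀, B₁, hB, hP⟩ := hP ε hε (hεε.trans (min_le_left _ _)) S g₀ P θ P₂ θ₂ Eb e₂ c Pt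
    rt L T G g hG hg hder hZ
  obtain ⟨p', hp'⟩ : ∃ p' : ℕ → ι ⊕ (ℕ × ℕ × ℚ × ℚ), p' = fun j => if j < M then Sum.inl (p j) else
    Sum.inr (0, 0, 1, 1) := ⟨_, rfl⟩
  obtain ⟨B₀', hB₀'⟩ : ∃ B₀' : ℕ → ℝ, B₀' = fun j => if j < M then B₀ j else 0 := ⟨_, rfl⟩
  obtain ⟨B₁', hB₁'⟩ : ∃ B₁' : ℕ → ℝ, B₁' = fun j => if j < M then B₁ j else 1 := ⟨_, rfl⟩
  have f1 : ∀ j < M, p' j = Sum.inl (p j) ∧ B₀' j = B₀ j ∧ B₁' j = B₁ j := fun j hj => by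
    rw [hp', hB₀', hB₁']
    exact ⟨if_pos hj, if_pos hj, if_pos hj⟩
  have f2 : p' M = Sum.inr (0, 0, 1, 1) ∧ B₀' M = 0 ∧ B₁' M = 1 := by
    rw [hp', hB₀', hB₁']
    exact ⟨if_neg (lt_irrefl M), if_neg (lt_irrefl M), if_neg (lt_irrefl M)⟩
  refine ⟨p', M + 1, B₀', B₁', fun j hj => ?_, fun k₀ hgk => ?_⟩
  · rcases Nat.lt_or_ge j M with h1 | h1
    · rw [(f1 j h1).2.1, (f1 j h1).2.2]
      exact hB j h1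
    · obtain rfl : j = M := by omega
      rw [f2.2.1, f2.2.2]
      norm_num
  obtain ⟨q₁, hq₁, hP⟩ := hP k₀ fun j hj => by
    have h1 := hgk j (by omega)
    rw [(f1 j hj).1] at h1
    exact h1
  refine ⟨q₁, hq₁, fun q t x hq hx N A V N' V' R hp hv pf pr Nf hpf hpr1 hpr2 hNf hYr => ?_⟩
  obtain ⟨S', hS'1, hS'2, Ψ, I₂, e, E₂, r₂, p₂, m₁, ρ, E, rd, vn, Pn, En, Rn, K₁', he, hee,
    hm₁, hρ, hE, hvD, PD⟩ := hP q t x hq (fun j hj => by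
      have h1 := hx j (by omega)
      rw [(f1 j hj).1, (f1 j hj).2.1, (f1 j hj).2.2] at h1
      exact h1) N A V N' V' R hp (fun k hk => by
        obtain ⟨j, hj, hj'⟩ := hVw1 k hk
        obtain ⟨i, hi, hi'⟩ := hv j hj
        exact ⟨i, hi, hi'.trans hj'⟩) pf pr Nf hpf hpr1 hpr2 hNf hYr
  refine ⟨S', hS'1, hS'2, e, he, ?_⟩
  -- the chain
  have hfa : Pool.W.LA91.FaQ (0, 0, 1, 1) (k₀ M) S P θ c Pt rt L T κ G (x M) := by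
    have h1 := (hx M (Nat.lt_succ_self M)).2.2.2
    rw [f2.1] at h1
    exact h1
  have hch := (hfa.ch (r + 1) hrm).sub hS'2
  have hwin : ∀ k < r + 3, t + V₂ k * q ∈ G := fun k hk => by
    obtain ⟨j, hj, hj'⟩ := hVw2 k hk
    obtain ⟨i, hi, hi'⟩ := hv j hj
    rw [← hj', ← hi']
    exact R.memG.2 i hi
  have v1 : ∀ k ≤ r, V₂ k = Pool.AJW.jfV r (-τ) X k := fun k hk => by
    rw [hV₂]
    exact if_pos hk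
  have v2 : V₂ (r + 1) = -τ - d₀ := by
    rw [hV₂]
    show (if r + 1 ≤ r then _ else if r + 1 = r + 1 then _ else _) = _
    rw [if_neg (by omega), if_pos rfl]
  have v3 : V₂ (r + 2) = 0 := by
    rw [hV₂]
    show (if r + 2 ≤ r then _ else if r + 2 = r + 1 then _ else _) = _
    rw [if_neg (by omega), if_neg (by omega)]
  rw [← haE, ← hbE] at PD
  rw [← haE] at hE hvD
  have hmain := H R hS'2 hr hrm hκ haE.symm hbE.symm hch (X := X) (φ := φ)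
    (kf := kf) (ℓ := ℓ) (D := D) (d₀ := d₀) hφ0 hφ2 hφ3 (by rw [← hτ]; exact hX2)
    (by rw [← hY]; exact hX3) hkf2 (by rw [← hτ]; exact hℓ2) (by rw [← hY]; exact hℓ3) hd0 hda
    (by rw [← hτ]; linarith only [hKK, hK₂, hd0, hD0, hab0, hℓ0])
    (by rw [← hτ]; linarith only [hKK, hK₂, h3X, hD0, hab0, hℓ0])
    (by linarith only [hKK, hK₂, h3X, hD0, hab0, hd0, hτ0])
    (by linarith only [hKK, hK₂, h3X, hD0, hℓ0, hd0, hτ0])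
    (by rw [← hτ]; linarith only [hKK, hK₂, h3X, hab0, hℓ0, hd0])
    hεφ hε.le
    (by
      have h1 := hwin (r + 2) (by omega)
      rw [v3, zero_mul, add_zero] at h1
      exact h1)
    (fun k hk => by
      have h1 := hwin k (by omega)
      rw [v1 k hk, hτ] at h1
      exact h1)
    (by
      have h1 := hwin (r + 1) (by omega)
      rw [v2, hτ] at h1
      exact h1)
    (fun l hl => (hpf l hl).1) hpr1 hNf he (by rw [← he₁]; exact hee) hm₁ hρ hE hvD PD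
  rw [← haE]
  exact hmain

/-- Without the hypothesis. -/
theorem F1UY.s {m r : ℕ} {h : ℝ} {Sl : ℕ → ℝ} {κ : ℕ → Pool.PKG.Kg} {ι Λ : Type} {Q : Pool.PKG.PropG m ι}
    {Z : Pool.PKG.PropZ m Λ} (H : Pool.W.PKG.F1UY m r h Sl κ Q Z (fun _ _ _ _ _ _ _ _ _ => True)) :
    Pool.W.PKG.F1US m r h Sl κ Q Z := by
  intro al hal K₀ hK₀ S₀ hS₀
  obtain ⟨Kr, Nr, Ar, Vr, h1, h2, H⟩ := H al hal K₀ hK₀ S₀ hS₀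
  refine ⟨Kr, Nr, Ar, Vr, h1, h2, fun S₂ hS₂ dd hdd => ?_⟩
  obtain ⟨lam, kf, φ, h3, h4, K₁, Nv, Vv, h5, H⟩ := H S₂ hS₂ dd hdd
  refine ⟨lam, kf, φ, h3, h4, K₁, Nv, Vv, h5, fun K' hK' => ?_⟩
  obtain ⟨ε₀, hε₀, H⟩ := H K' hK'
  refine ⟨ε₀, hε₀, fun ε hε hεε S g₀ P θ P₂ θ₂ Eb e₂ c Pt rt L T G g hG hg hd hZ => ?_⟩
  obtain ⟨p, M, B₀, B₁, hB, H⟩ := H ε hε hεε S g₀ P θ P₂ θ₂ Eb e₂ c Pt rt L T G g hG hg hd hZ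
  refine ⟨p, M, B₀, B₁, hB, fun k₀ hk₀ => ?_⟩
  obtain ⟨q₁, hq₁, H⟩ := H k₀ hk₀
  exact ⟨q₁, hq₁, fun q t x hq hx N A V N' V' R hp hv pf pr Nf a1 a2 a3 a4 =>
    H q t x hq hx N A V N' V' R hp hv pf pr Nf a1 a2 a3 a4 trivial⟩

end Pool.W.PKG
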