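import Pool.Agent.H18.PN.Cnr
import Pool.Agent.H31.W.H18.PN.Pyb
import Pool.Agent.H31.W.H80.ASB.Cb1
import Pool.Agent.H31.W1.H91.FR.QpG
import Pool.Agent.H57.SWC.Lx
import Pool.Agent.H57.SWC.Lxa

/-!
# The first jet of a place at the windows of full rate, slopes without resonance

`f1ud_nores`: `F1UD` if the last slope is at most the slope of the place and there is no resonance
`i b = j a`, `1 ≤ i ≤ ⌊a⌋`, `1 ≤ j ≤ ⌊b⌋`. `cbF_nores`: `CbF`.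
-/

set_option autoImplicit false

namespace Pool.W.ASM

open Pool.ASM

open Finset Real
open Pool.GEN Pool.PKG Pool.SW Pool.ALT Pool.PN18
open Pool.LA91 (FaQ sumQ HerQ her_sum her_fa aePG_fa aePG_sum)


/-- **The first jet of a place at the windows of full rate**, slopes without resonance. -/
theorem f1ud_nores {r : ℕ} (hr : 1 ≤ r) {h : ℝ} (hh : 0 < h) (hh1 : h ≤ 1) {Sl : ℕ → ℝ}
    {κ : ℕ → Pool.PKG.Kg} (hκ : ∀ l < r, κ l = .one) (ha : 1 < Sl r) (hb : 0 < Sl (r + 1))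
    (hab : Sl (r + 1) ≤ Sl r) (hres : Pool.ASM.NoRes (Sl r) (Sl (r + 1))) :
    Pool.W.PKG.F1UD (r + 2) r h Sl κ
      (Pool.LA91.sumQ (Pool.LA91.sumQ (Pool.W.ALT.AltR : Pool.PKG.PropG (r + 2) Pool.ALT.AltUI) (Pool.W.PKG.CuQ : Pool.PKG.PropG (r + 2) Unit)) Pool.W.LA91.FaQ) (Pool.W.PN18.ZfR r Sl) :=
  (Pool.W.PKG.f1uy_of_pair hr (by omega) hκ ha hb hres (Pool.W.PN18.pairY_ba hr hh hh1 hκ ha hb hab _)).s.d

/-- **The first jet of the place 2** at the windows of full rate, slopes without resonance. -/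
theorem cbF_nores {k : Pool.PKG.Kg} (hk : k = .stp ∨ k = .thin ∨ k = .sta) :
    Pool.W.ASM.CbF k (fun Sl => Sl 3 ≤ Sl 2 ∧ Pool.ASM.NoRes (Sl 2) (Sl 3)) := by
  refine ⟨(Pool.ALT.AltUI ⊕ Unit) ⊕ (ℕ × ℕ × ℚ × ℚ), inferInstance,
    Pool.LA91.sumQ (Pool.LA91.sumQ (Pool.W.ALT.AltR : Pool.PKG.PropG 4 Pool.ALT.AltUI) (Pool.W.PKG.CuQ : Pool.PKG.PropG 4 Unit)) Pool.W.LA91.FaQ,
    Pool.W.LA91.aePG_sum (Pool.W.LA91.aePG_sum (Pool.W.ALT.aePG_altR 4) (Pool.W.ALT.her_altR 4) (Pool.W.PKG.aePG_cu 4)) (Pool.LA91.her_sum (Pool.W.ALT.her_altR 4) (Pool.W.PKG.her_cu 4))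
      (Pool.W.LA91.aePG_fa 4), Pool.LA91.her_sum (Pool.LA91.her_sum (Pool.W.ALT.her_altR 4) (Pool.W.PKG.her_cu 4)) (Pool.W.LA91.her_fa 4), ?_⟩
  rintro h hh hh1 Sl hS ⟨hab, hres⟩
  have ha : 1 < Sl 2 := by
    rcases hk with hk | hk | hk
    · have := hS.stp hk
      linarith
    · exact hS.thin hk
    · have := hS.sta hk
      linarith
  exact Pool.W.ASM.f1ud_nores (r := 2) (by norm_num) hh hh1 (fun l hl => by interval_cases l <;> rfl) ha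
    (by linarith [hS.s3]) hab hres

end Pool.W.ASM
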